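import Pool.Agent.Lib_helper46.GA.X13
import Pool.Agent.Lib_helper97.LSPO.WW

/-!
# LSP2, part B: the primitive characters of conductor at most `R` and a window of primes

Almost orthogonality (row sums) from the bounds `ε q χ` for the conductors up to `R ^ 2`, and the
sign of the real characters.
-/

set_option autoImplicit false
set_option linter.unusedSectionVars false

namespace Pool.Agent.GA

open Finset Complex Pool.Agent.Var73 Pool.Agent.LSPO

/-- the primitive characters of conductor at most `R` (with the trivial one, `q = 1`) -/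
noncomputable def PsiR (R : ℕ) : Finset Chr := (Icc 1 R).sigma Pr

/-- the trivial character -/
noncomputable def chrOne : Chr := ⟨1, 1⟩

/-- the conjugate character -/
noncomputable def chrCj (x : Chr) : Chr := ⟨x.1, x.2⁻¹⟩

/-- the value at a natural number -/
noncomputable def chrEv (x : Chr) (n : ℕ) : ℂ := x.2 (n : ZMod x.1)

theorem mem_PsiR {R : ℕ} {x : Chr} : x ∈ PsiR R ↔ (1 ≤ x.1 ∧ x.1 ≤ R) ∧ x.2.IsPrimitive := by
  rw [PsiR, mem_sigma, mem_Icc, mem_Pr]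

theorem chrOne_mem {R : ℕ} (hR : 1 ≤ R) : chrOne ∈ PsiR R := by
  rw [mem_PsiR]
  refine ⟨⟨le_rfl, hR⟩, ?_⟩
  show (1 : DirichletCharacter ℂ 1).IsPrimitive
  rw [DirichletCharacter.isPrimitive_def, DirichletCharacter.conductor_one]

theorem chrEv_one (n : ℕ) : chrEv chrOne n = 1 := by
  show (1 : DirichletCharacter ℂ 1) (n : ZMod 1) = 1
  have h : IsUnit ((n : ZMod 1)) := by
    rw [ZMod.isUnit_iff_coprime]
    exact Nat.coprime_one_right n
  exact MulChar.one_apply h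

theorem chrCj_mem {R : ℕ} {x : Chr} (hx : x ∈ PsiR R) : chrCj x ∈ PsiR R := by
  rw [mem_PsiR] at hx ⊢
  exact ⟨hx.1, inv_primitive hx.2⟩

theorem chrCj_chrCj (x : Chr) : chrCj (chrCj x) = x := by
  obtain ⟨d, ψ⟩ := x
  show (⟨d, ψ⁻¹⁻¹⟩ : Chr) = ⟨d, ψ⟩
  rw [inv_inv]

theorem chrCj_one : chrCj chrOne = chrOne := by
  show (⟨1, (1 : DirichletCharacter ℂ 1)⁻¹⟩ : Chr) = ⟨1, 1⟩
  rw [inv_one]

theorem chrEv_cj (x : Chr) (n : ℕ) : chrEv (chrCj x) n = (starRingEnd ℂ) (chrEv x n) := by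
  show x.2⁻¹ (n : ZMod x.1) = (starRingEnd ℂ) (x.2 (n : ZMod x.1))
  rw [← MulChar.star_apply']
  rfl

theorem chrEv_norm {R : ℕ} {x : Chr} (hx : x ∈ PsiR R) {p : ℕ} (hp : p.Prime) (hR : R < p) :
    ‖chrEv x p‖ = 1 := by
  obtain ⟨⟨h1, h2⟩, -⟩ := mem_PsiR.1 hx
  have hc : p.Coprime x.1 := by
    rw [hp.coprime_iff_not_dvd]
    intro hd
    exact absurd (Nat.le_of_dvd (by omega) hd) (by omega)
  obtain ⟨v, hv⟩ := (ZMod.isUnit_iff_coprime p x.1).mpr hc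
  show ‖x.2 (p : ZMod x.1)‖ = 1
  rw [← hv]
  exact DirichletCharacter.unit_norm_eq_one x.2 v

theorem chrEv_mul {x : Chr} (m n : ℕ) : chrEv x (m * n) = chrEv x m * chrEv x n := by
  show x.2 ((m * n : ℕ) : ZMod x.1) = x.2 (m : ZMod x.1) * x.2 (n : ZMod x.1)
  rw [Nat.cast_mul, map_mul]

/-- **Almost orthogonality**: `rel x y` is the primitive character of `conj x · y`. -/
theorem chr_rel [DecidableEq Chr] {R D : ℕ} (hR : 1 ≤ R) (hD : R ^ 2 ≤ D) :
    ∃ rel : Chr → Chr → Chr,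
      (∀ x ∈ PsiR R, ∀ y ∈ PsiR R, ∀ p : ℕ, p.Prime → R ^ 2 < p →
        chrEv (rel x y) p = (starRingEnd ℂ) (chrEv x p) * chrEv y p) ∧
      (∀ x ∈ PsiR R, ∀ y ∈ PsiR R, y ≠ x → rel x y ∈ (Icc 1 D).sigma Prm) ∧
      ∀ E : Chr → ℝ, (∀ z, 0 ≤ E z) → ∀ x ∈ PsiR R,
        ∑ y ∈ (PsiR R).erase x, E (rel x y) ≤ ∑ z ∈ (Icc 1 D).sigma Prm, E z := by
  set L : ℕ := (R ^ 2).factorial with hL
  have : NeZero L := ⟨Nat.factorial_ne_zero _⟩
  have hcop : ∀ p : ℕ, p.Prime → R ^ 2 < p → p.Coprime L := by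
    intro p hp hp2
    rw [hp.coprime_iff_not_dvd, hL, hp.dvd_factorial]
    exact not_le.mpr hp2
  have hRR : R ≤ R ^ 2 := by nlinarith
  have hIdvd : ∀ x ∈ PsiR R, x.1 ∣ L := by
    intro x hx
    obtain ⟨⟨h1, h2⟩, -⟩ := mem_PsiR.1 hx
    exact Nat.dvd_factorial (by omega) (h2.trans hRR)
  set lift : Chr → DirichletCharacter ℂ L := fun x =>
    if h : x.1 ∣ L then DirichletCharacter.changeLevel h x.2 else 1 with hlift
  have hlift1 : ∀ x (hx : x ∈ PsiR R), lift x =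
      DirichletCharacter.changeLevel (hIdvd x hx) x.2 := by
    intro x hx
    simp only [hlift]
    rw [dif_pos (hIdvd x hx)]
  have hprm : ∀ x ∈ PsiR R, prm (lift x) = x := by
    intro x hx
    rw [hlift1 x hx, prm_changeLevel _ _ (mem_PsiR.1 hx).2]
  have hev : ∀ x ∈ PsiR R, ∀ p : ℕ, p.Coprime L → lift x (p : ZMod L) = chrEv x p := by
    intro x hx p hp
    rw [hlift1 x hx, ww_lift (hIdvd x hx) x.2 ((mem_Pr _).2 (mem_PsiR.1 hx).2) hp]
    rfl
  refine ⟨fun x y => prm ((lift x)⁻¹ * lift y), ?_, ?_, ?_⟩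
  · intro x hx y hy p hp hp2
    have hc := hcop p hp hp2
    have h1 : chrEv (prm ((lift x)⁻¹ * lift y)) p = ((lift x)⁻¹ * lift y) (p : ZMod L) :=
      (ww_prm _ hc).symm
    rw [h1, MulChar.mul_apply, hev y hy p hc]
    congr 1
    rw [← hev x hx p hc, ← MulChar.star_apply']
    rfl
  · intro x hx y hy hne
    set χ := (lift x)⁻¹ * lift y with hχ
    have hχ1 : χ ≠ 1 := by
      intro h1
      rw [hχ, inv_mul_eq_one] at h1
      apply hne
      rw [← hprm x hx, ← hprm y hy, h1]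
    obtain ⟨⟨a1, a2⟩, -⟩ := mem_PsiR.1 hx
    obtain ⟨⟨b1, b2⟩, -⟩ := mem_PsiR.1 hy
    have hmul : y.1 * x.1 ≤ R ^ 2 := by
      rw [pow_two]
      exact Nat.mul_le_mul b2 a2
    have hpos : 0 < y.1 * x.1 := Nat.mul_pos (by omega) (by omega)
    have hdd : y.1 * x.1 ∣ L := Nat.dvd_factorial hpos hmul
    have hcd := ww_cond hdd y.2 x.2 (hIdvd y hy) (hIdvd x hx)
    rw [← hlift1 x hx, ← hlift1 y hy, mul_comm, ← hχ] at hcd
    rw [mem_sigma, mem_Icc]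
    refine ⟨⟨?_, ?_⟩, ?_⟩
    · exact Nat.one_le_iff_ne_zero.mpr (DirichletCharacter.conductor_ne_zero _)
    · exact (Nat.le_of_dvd hpos hcd).trans (hmul.trans hD)
    · rw [mem_Prm]
      refine ⟨DirichletCharacter.primitiveCharacter_isPrimitive _, ?_⟩
      intro h1
      apply hχ1
      have h2 := DirichletCharacter.changeLevel_primitiveCharacter χ
      rw [← h2]
      show DirichletCharacter.changeLevel _ χ.primitiveCharacter = 1
      have h3 : χ.primitiveCharacter = 1 := h1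
      rw [h3, DirichletCharacter.changeLevel_one]
  · intro E hE x hx
    have hinj : Set.InjOn (fun y : Chr => prm ((lift x)⁻¹ * lift y))
        (((PsiR R).erase x : Finset Chr) : Set Chr) := by
      intro y1 hy1 y2 hy2 h12
      have h13 : (lift x)⁻¹ * lift y1 = (lift x)⁻¹ * lift y2 := prm_injective h12
      have h14 := mul_left_cancel h13
      have e1 : y1 ∈ PsiR R := (Finset.mem_erase.1 (Finset.mem_coe.1 hy1)).2
      have e2 : y2 ∈ PsiR R := (Finset.mem_erase.1 (Finset.mem_coe.1 hy2)).2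
      rw [← hprm y1 e1, ← hprm y2 e2, h14]
    rw [← Finset.sum_image (s := (PsiR R).erase x)
      (g := fun y : Chr => prm ((lift x)⁻¹ * lift y)) (f := E) hinj]
    refine Finset.sum_le_sum_of_subset_of_nonneg ?_ fun z _ _ => hE z
    intro z hz
    rw [Finset.mem_image] at hz
    obtain ⟨y, hy, rfl⟩ := hz
    obtain ⟨hne, hy'⟩ := Finset.mem_erase.1 hy
    -- repeat of the membership proof
    set χ := (lift x)⁻¹ * lift y with hχ
    have hχ1 : χ ≠ 1 := by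
      intro h1
      rw [hχ, inv_mul_eq_one] at h1
      apply hne
      rw [← hprm x hx, ← hprm y hy', h1]
    obtain ⟨⟨a1, a2⟩, -⟩ := mem_PsiR.1 hx
    obtain ⟨⟨b1, b2⟩, -⟩ := mem_PsiR.1 hy'
    have hmul : y.1 * x.1 ≤ R ^ 2 := by
      rw [pow_two]
      exact Nat.mul_le_mul b2 a2
    have hpos : 0 < y.1 * x.1 := Nat.mul_pos (by omega) (by omega)
    have hdd : y.1 * x.1 ∣ L := Nat.dvd_factorial hpos hmul
    have hcd := ww_cond hdd y.2 x.2 (hIdvd y hy') (hIdvd x hx)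
    rw [← hlift1 x hx, ← hlift1 y hy', mul_comm, ← hχ] at hcd
    rw [mem_sigma, mem_Icc]
    refine ⟨⟨?_, ?_⟩, ?_⟩
    · exact Nat.one_le_iff_ne_zero.mpr (DirichletCharacter.conductor_ne_zero _)
    · exact (Nat.le_of_dvd hpos hcd).trans (hmul.trans hD)
    · rw [mem_Prm]
      refine ⟨DirichletCharacter.primitiveCharacter_isPrimitive _, ?_⟩
      intro h1
      apply hχ1
      have h2 := DirichletCharacter.changeLevel_primitiveCharacter χ
      rw [← h2]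
      show DirichletCharacter.changeLevel _ χ.primitiveCharacter = 1
      have h3 : χ.primitiveCharacter = 1 := h1
      rw [h3, DirichletCharacter.changeLevel_one]

/-- row sums of the Gram matrix of the characters on a window of primes -/
theorem chr_orth [DecidableEq Chr] {R D : ℕ} (hR : 1 ≤ R) (hD : R ^ 2 ≤ D)
    (ε : (q : ℕ) → DirichletCharacter ℂ q → ℝ) (hε : ∀ q χ, 0 ≤ ε q χ) (m : ℝ) (hm : 0 ≤ m)
    (S : Finset ℕ) (w : ℕ → ℝ) (hw : ∀ p ∈ S, w p ≠ 0 → p.Prime ∧ R ^ 2 < p)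
    (hb : ∀ q ∈ Icc 1 D, ∀ χ ∈ Prm q, ‖∑ p ∈ S, ((w p : ℝ) : ℂ) * χ (p : ZMod q)‖ ≤ ε q χ * m)
    {x : Chr} (hx : x ∈ PsiR R) :
    ∑ y ∈ (PsiR R).erase x, ‖∑ p ∈ S, ((w p : ℝ) : ℂ) *
      ((starRingEnd ℂ) (chrEv x p) * chrEv y p)‖ ≤
      (∑ q ∈ Icc 1 D, ∑ χ ∈ Prm q, ε q χ) * m := by
  obtain ⟨rel, h1, h2, h3⟩ := chr_rel hR hD
  have h4 : ∀ y ∈ (PsiR R).erase x, ‖∑ p ∈ S, ((w p : ℝ) : ℂ) *
      ((starRingEnd ℂ) (chrEv x p) * chrEv y p)‖ ≤ ε (rel x y).1 (rel x y).2 * m := by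
    intro y hy
    obtain ⟨hne, hy'⟩ := Finset.mem_erase.1 hy
    have h5 := h2 x hx y hy' hne
    rw [mem_sigma] at h5
    refine le_trans (le_of_eq ?_) (hb _ h5.1 _ h5.2)
    congr 1
    refine Finset.sum_congr rfl fun p hp => ?_
    by_cases h0 : w p = 0
    · rw [h0]; simp
    · obtain ⟨hpp, hp2⟩ := hw p hp h0
      rw [← h1 x hx y hy' p hpp hp2]
      rfl
  calc ∑ y ∈ (PsiR R).erase x, ‖∑ p ∈ S, ((w p : ℝ) : ℂ) *
        ((starRingEnd ℂ) (chrEv x p) * chrEv y p)‖ ≤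
      ∑ y ∈ (PsiR R).erase x, ε (rel x y).1 (rel x y).2 * m := Finset.sum_le_sum h4
    _ = (∑ y ∈ (PsiR R).erase x, (fun z : Chr => ε z.1 z.2) (rel x y)) * m := by
        rw [Finset.sum_mul]
    _ ≤ (∑ z ∈ (Icc 1 D).sigma Prm, (fun z : Chr => ε z.1 z.2) z) * m :=
        mul_le_mul_of_nonneg_right (h3 _ (fun z => hε z.1 z.2) x hx) hm
    _ = _ := by rw [Finset.sum_sigma]

/-- a real primitive character takes both signs on the window -/
theorem chr_real_sign {D R : ℕ} (hRD : R ≤ D)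
    (ε : (q : ℕ) → DirichletCharacter ℂ q → ℝ) (hε : ∀ q χ, 0 ≤ ε q χ)
    (hsum : ∑ q ∈ Icc 1 D, ∑ χ ∈ Prm q, ε q χ < 1)
    (P : Finset ℕ) (u : ℕ → ℝ) (hP : ∀ p ∈ P, p.Prime ∧ R < p ∧ 0 ≤ u p)
    (hu1 : ∑ p ∈ P, u p = 1)
    (hb : ∀ q ∈ Icc 1 D, ∀ χ ∈ Prm q, ‖∑ p ∈ P, ((u p : ℝ) : ℂ) * χ (p : ZMod q)‖ ≤ ε q χ)
    {x : Chr} (hx : x ∈ PsiR R) (hx1 : x ≠ chrOne) (hxc : chrCj x = x) {N : ℕ}
    (hN : N.Prime) (hNR : R < N) :
    ∃ N' ∈ P, chrEv x N' = -chrEv x N := by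
  by_contra hcon
  push Not at hcon
  obtain ⟨⟨a1, a2⟩, a3⟩ := mem_PsiR.1 hx
  -- the values are `± 1`
  have hpm : ∀ n : ℕ, n.Prime → R < n → chrEv x n = 1 ∨ chrEv x n = -1 := by
    intro n hn hRn
    have h1 : (starRingEnd ℂ) (chrEv x n) = chrEv x n := by
      rw [← chrEv_cj, hxc]
    have h2 := chrEv_norm hx hn hRn
    rw [Complex.conj_eq_iff_real] at h1
    obtain ⟨r, hr⟩ := h1
    rw [hr, Complex.norm_real, Real.norm_eq_abs] at h2
    rcases abs_eq (by norm_num : (0 : ℝ) ≤ 1) |>.1 h2 with h | h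
    · left; rw [hr, h]; simp
    · right; rw [hr, h]; simp
  have hc : ∀ p ∈ P, chrEv x p = chrEv x N := by
    intro p hp
    obtain ⟨hpp, hpR, -⟩ := hP p hp
    have h1 := hcon p hp
    rcases hpm p hpp hpR with h | h <;> rcases hpm N hN hNR with h' | h'
    · rw [h, h']
    · exfalso; apply h1; rw [h, h']; simp
    · exfalso; apply h1; rw [h, h']
    · rw [h, h']
  have hxP : x.2 ∈ Prm x.1 := by
    rw [mem_Prm]
    refine ⟨a3, ?_⟩
    intro h1
    apply hx1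
    have : NeZero x.1 := ⟨by omega⟩
    have h3 := a3
    rw [DirichletCharacter.isPrimitive_def, h1, DirichletCharacter.conductor_one] at h3
    obtain ⟨d, ψ⟩ := x
    simp only at h1 h3
    subst h3
    rw [h1]
    rfl
  have hb1 := hb x.1 (mem_Icc.2 ⟨a1, a2.trans hRD⟩) x.2 hxP
  have h5 : ∑ p ∈ P, ((u p : ℝ) : ℂ) * x.2 (p : ZMod x.1) = chrEv x N := by
    calc ∑ p ∈ P, ((u p : ℝ) : ℂ) * x.2 (p : ZMod x.1) =
        ∑ p ∈ P, ((u p : ℝ) : ℂ) * chrEv x N :=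
          Finset.sum_congr rfl fun p hp => by rw [← hc p hp]; rfl
      _ = ((∑ p ∈ P, u p : ℝ) : ℂ) * chrEv x N := by
          rw [← Finset.sum_mul]; push_cast; rfl
      _ = chrEv x N := by rw [hu1]; simp
  rw [h5, chrEv_norm hx hN hNR] at hb1
  have h6 : ε x.1 x.2 ≤ ∑ q ∈ Icc 1 D, ∑ χ ∈ Prm q, ε q χ := by
    calc ε x.1 x.2 ≤ ∑ χ ∈ Prm x.1, ε x.1 χ :=
          Finset.single_le_sum (f := fun χ => ε x.1 χ) (fun χ _ => hε _ _) hxP
      _ ≤ _ := Finset.single_le_sum (f := fun q => ∑ χ ∈ Prm q, ε q χ)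
          (fun q _ => Finset.sum_nonneg fun χ _ => hε _ _) (mem_Icc.2 ⟨a1, a2.trans hRD⟩)
  linarith

end Pool.Agent.GA
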