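import Pool.Agent.Lib_helper98.GAF.Final

/-!
# GA part X: sums of the windows over a grid of centres
-/

set_option autoImplicit false
set_option linter.unusedSectionVars false

namespace Pool.Agent.GA

open Finset Complex Metric Filter
open scoped ArithmeticFunction.vonMangoldt Classical Topology

/-- a sum of exponentials over a separated sequence -/
theorem x9_sep {J : ℕ} {m : ℕ → ℝ} {δ lam y : ℝ} (hδ : 0 < δ) (hl : 0 < lam)
    (hm : ∀ i j : ℕ, i ≤ j → j < J → δ * ((j : ℝ) - i) ≤ m j - m i) :
    ∑ j ∈ Finset.range J, Real.exp (-(lam * |y - m j|)) ≤ 2 * (1 + 2 / (lam * δ)) := by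
  rcases Nat.eq_zero_or_pos J with rfl | hJ
  · simp only [Finset.range_zero, Finset.sum_empty]
    positivity
  obtain ⟨j₀, hj₀, hmin⟩ := Finset.exists_min_image (Finset.range J) (fun j => |y - m j|)
    ⟨0, Finset.mem_range.2 hJ⟩
  rw [Finset.mem_range] at hj₀
  set q : ℝ := Real.exp (-(lam * δ / 2)) with hq
  have hx0 : 0 < lam * δ / 2 := by positivity
  have hq0 : 0 < q := Real.exp_pos _
  have hq1 : q < 1 := by
    rw [hq, ← Real.exp_zero]
    exact Real.exp_lt_exp.2 (by linarith)
  have hgeo : (1 - q)⁻¹ ≤ 1 + 2 / (lam * δ) := by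
    have h1 : q * (1 + lam * δ / 2) ≤ 1 := by
      have h2 := Real.add_one_le_exp (lam * δ / 2)
      calc q * (1 + lam * δ / 2) ≤ q * Real.exp (lam * δ / 2) := by
            apply mul_le_mul_of_nonneg_left _ hq0.le; linarith
        _ = 1 := by rw [hq, ← Real.exp_add]; simp
    rw [inv_le_iff_one_le_mul₀ (by linarith)]
    have h3 : 2 / (lam * δ) = (lam * δ / 2)⁻¹ := by
      rw [inv_div]
    rw [h3]
    set x := lam * δ / 2 with hx
    have h4 : (1 - q) * (1 + x⁻¹) = ((1 - q) * (1 + x)) / x := by field_simp; ring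
    have h5 : (1 + x⁻¹) * (1 - q) = ((1 - q) * (1 + x)) / x := by rw [mul_comm]; exact h4
    rw [h5, le_div_iff₀ hx0]
    nlinarith
  have hterm : ∀ j < J, Real.exp (-(lam * |y - m j|)) ≤ q ^ (max j j₀ - min j j₀) := by
    intro j hj
    have h1 := hmin j (Finset.mem_range.2 hj)
    have h2 : δ * ((max j j₀ - min j j₀ : ℕ) : ℝ) ≤ 2 * |y - m j| := by
      have h3 : |m j - m j₀| ≤ |y - m j| + |y - m j₀| := by
        have := abs_sub_le (m j) y (m j₀)
        rw [abs_sub_comm (m j) y] at this
        exact this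
      rcases le_total j j₀ with h | h
      · have h4 := hm j j₀ h hj₀
        rw [max_eq_right h, min_eq_left h, Nat.cast_sub h]
        have := neg_abs_le (m j - m j₀)
        linarith
      · have h4 := hm j₀ j h hj
        rw [max_eq_left h, min_eq_right h, Nat.cast_sub h]
        have := le_abs_self (m j - m j₀)
        linarith
    rw [hq, ← Real.exp_nat_mul]
    apply Real.exp_le_exp.2
    nlinarith
  calc ∑ j ∈ Finset.range J, Real.exp (-(lam * |y - m j|)) ≤
      ∑ j ∈ Finset.range J, q ^ (max j j₀ - min j j₀) :=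
        Finset.sum_le_sum fun j hj => hterm j (Finset.mem_range.1 hj)
    _ ≤ ∑ j ∈ Finset.range J, (if j ≤ j₀ then q ^ (j₀ - j) else 0) +
        ∑ j ∈ Finset.range J, (if j₀ ≤ j then q ^ (j - j₀) else 0) := by
        rw [← Finset.sum_add_distrib]
        refine Finset.sum_le_sum fun j _ => ?_
        rcases le_total j j₀ with h | h
        · rw [if_pos h, max_eq_right h, min_eq_left h]
          have : 0 ≤ (if j₀ ≤ j then q ^ (j - j₀) else 0) := by
            split_ifs
            · positivity
            · exact le_rfl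
          linarith
        · rw [if_pos h, max_eq_left h, min_eq_right h]
          have : 0 ≤ (if j ≤ j₀ then q ^ (j₀ - j) else 0) := by
            split_ifs
            · positivity
            · exact le_rfl
          linarith
    _ ≤ (1 - q)⁻¹ + (1 - q)⁻¹ := by
        have hs := summable_geometric_of_lt_one hq0.le hq1
        have ht := tsum_geometric_of_lt_one hq0.le hq1
        apply add_le_add
        · rw [← Finset.sum_filter]
          have hinj : Set.InjOn (fun j => j₀ - j) ((Finset.range J).filter (fun j => j ≤ j₀)) := by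
            intro a ha b hb hab
            rw [Finset.mem_coe, Finset.mem_filter] at ha hb
            have h1 : j₀ - a = j₀ - b := hab
            omega
          rw [← Finset.sum_image (g := fun j => j₀ - j) (f := fun i => q ^ i) hinj, ← ht]
          exact hs.sum_le_tsum _ fun i _ => by positivity
        · rw [← Finset.sum_filter]
          have hinj : Set.InjOn (fun j => j - j₀) ((Finset.range J).filter (fun j => j₀ ≤ j)) := by
            intro a ha b hb hab
            rw [Finset.mem_coe, Finset.mem_filter] at ha hb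
            have h1 : a - j₀ = b - j₀ := hab
            omega
          rw [← Finset.sum_image (g := fun j => j - j₀) (f := fun i => q ^ i) hinj, ← ht]
          exact hs.sum_le_tsum _ fun i _ => by positivity
    _ ≤ 2 * (1 + 2 / (lam * δ)) := by linarith

/-- the sum of the windows over a fine grid of centres -/
theorem x9_grid {X k J : ℕ} (hX : 8 ≤ X) (hk : Real.log (2 * X) ^ 2 ≤ k)
    (hJ : Real.sqrt k / Real.log (2 * X) ≤ J) {n : ℕ} (hn : 1 ≤ n) :
    ∑ j ∈ Finset.range J, wK k (Real.log (X * (1 + (j : ℝ) / J))) n ≤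
      20 * Real.exp 2 * J / n := by
  have hXR : (8 : ℝ) ≤ X := by exact_mod_cast hX
  have hX0 : (0 : ℝ) < X := by linarith
  have hn0 : (0 : ℝ) < n := by exact_mod_cast hn
  set M₁ : ℝ := Real.log (2 * X) with hM₁
  have hl2 : 0 < Real.log 2 := Real.log_pos (by norm_num)
  have hl8 : 3 * Real.log 2 ≤ Real.log X := by
    have h1 : Real.log 8 ≤ Real.log X := Real.log_le_log (by norm_num) hXR
    have h2 : Real.log 8 = 3 * Real.log 2 := by
      rw [show (8 : ℝ) = 2 ^ (3 : ℕ) by norm_num, Real.log_pow]; norm_num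
    linarith
  have hl2' : (0.69 : ℝ) < Real.log 2 := by
    have := Real.log_two_gt_d9
    linarith
  have hM₁X : M₁ = Real.log 2 + Real.log X := by
    rw [hM₁, Real.log_mul (by norm_num) hX0.ne']
  have hM₁2 : 2 ≤ M₁ := by linarith
  have hM₁0 : 0 < M₁ := by linarith
  have hk4 : (4 : ℝ) ≤ k := by nlinarith
  have hk0 : (0 : ℝ) < k := by linarith
  have hs2 : 2 ≤ Real.sqrt k := by
    apply Real.le_sqrt_of_sq_le; linarith
  have hs0 : 0 < Real.sqrt k := by linarith
  have hss : Real.sqrt k * Real.sqrt k = k := Real.mul_self_sqrt hk0.le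
  set lam : ℝ := Real.sqrt k / M₁ with hlam
  have hlam0 : 0 < lam := by positivity
  have hJ0 : (0 : ℝ) < J := lt_of_lt_of_le hlam0 hJ
  have hterm : ∀ j ∈ Finset.range J, wK k (Real.log (X * (1 + (j : ℝ) / J))) n ≤
      2 * lam * Real.exp 2 / n *
        Real.exp (-(lam * |Real.log n - Real.log (X * (1 + (j : ℝ) / J))|)) := by
    intro j hj
    have hjJ : (j : ℝ) / J ≤ 1 := by
      rw [div_le_one hJ0]
      exact_mod_cast (Finset.mem_range.1 hj).le
    have hj0 : 0 ≤ (j : ℝ) / J := by positivity
    set M : ℝ := Real.log (X * (1 + (j : ℝ) / J)) with hM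
    have hM1 : Real.log X ≤ M := Real.log_le_log hX0 (by nlinarith)
    have hM2 : M ≤ M₁ := Real.log_le_log (by positivity) (by nlinarith)
    have hM0 : 1 ≤ M := by linarith
    have hMpos : 0 < M := by linarith
    have hMk : M ^ 2 ≤ k := (pow_le_pow_left₀ hMpos.le hM2 2).trans hk
    have h1 : lam ≤ k / M / 2 := by
      rw [hlam, div_div, div_le_div_iff₀ hM₁0 (by positivity)]
      have h7 : M * 2 ≤ M₁ * Real.sqrt k := mul_le_mul hM2 hs2 (by norm_num) hM₁0.le
      calc Real.sqrt k * (M * 2) ≤ Real.sqrt k * (M₁ * Real.sqrt k) :=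
            mul_le_mul_of_nonneg_left h7 hs0.le
        _ = (Real.sqrt k * Real.sqrt k) * M₁ := by ring
        _ = k * M₁ := by rw [hss]
    have h2 := x6_tilt hM0 hMk hlam0.le h1 hn
    refine h2.trans ?_
    have h3 : k / M / Real.sqrt k ≤ 2 * lam := by
      have h4 : (k : ℝ) / M / Real.sqrt k = Real.sqrt k / M := by
        rw [div_div, div_eq_div_iff (by positivity) hMpos.ne']
        nth_rewrite 1 [← hss]
        ring
      rw [h4, hlam, ← mul_div_assoc, div_le_div_iff₀ hMpos hM₁0]
      nlinarith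
    have h5 : 2 * lam ^ 2 * M ^ 2 / k ≤ 2 := by
      rw [div_le_iff₀ hk0, hlam, div_pow, Real.sq_sqrt hk0.le]
      have h6 : M ^ 2 ≤ M₁ ^ 2 := pow_le_pow_left₀ hMpos.le hM2 2
      calc 2 * ((k : ℝ) / M₁ ^ 2) * M ^ 2 ≤ 2 * ((k : ℝ) / M₁ ^ 2) * M₁ ^ 2 := by gcongr
        _ = 2 * (k : ℝ) := by field_simp
    calc (k : ℝ) / M / Real.sqrt k * (1 / n) *
          Real.exp (-(lam * |Real.log n - M|) + 2 * lam ^ 2 * M ^ 2 / k) ≤
        2 * lam * (1 / n) * Real.exp (-(lam * |Real.log n - M|) + 2) := by gcongr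
      _ = _ := by rw [Real.exp_add]; ring
  have hsep := x9_sep (J := J) (m := fun j => Real.log (X * (1 + (j : ℝ) / J)))
    (δ := 1 / (2 * J)) (lam := lam) (y := Real.log n) (by positivity) hlam0 (by
      intro i j hij hj
      have hi' : (0 : ℝ) ≤ (i : ℝ) / J := by positivity
      have hij' : (i : ℝ) ≤ j := by exact_mod_cast hij
      have hjJ : (j : ℝ) ≤ J := by exact_mod_cast hj.le
      have h1 : Real.log (X * (1 + (j : ℝ) / J)) - Real.log (X * (1 + (i : ℝ) / J)) =
          -Real.log ((1 + (i : ℝ) / J) / (1 + (j : ℝ) / J)) := by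
        rw [Real.log_mul hX0.ne' (by positivity), Real.log_mul hX0.ne' (by positivity),
          Real.log_div (by positivity) (by positivity)]
        ring
      have h2 := Real.log_le_sub_one_of_pos
        (show (0 : ℝ) < (1 + (i : ℝ) / J) / (1 + (j : ℝ) / J) by positivity)
      have h3 : (1 + (i : ℝ) / J) / (1 + (j : ℝ) / J) - 1 ≤ -(1 / (2 * J) * ((j : ℝ) - i)) := by
        have h4 : (1 + (i : ℝ) / J) / (1 + (j : ℝ) / J) - 1 = -(((j : ℝ) - i) / (J + j)) := by
          field_simp
          ring
        rw [h4, neg_le_neg_iff, one_div, inv_mul_eq_div]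
        apply div_le_div_of_nonneg_left (by linarith) (by positivity) (by linarith)
      show 1 / (2 * (J : ℝ)) * ((j : ℝ) - i) ≤
        Real.log (X * (1 + (j : ℝ) / J)) - Real.log (X * (1 + (i : ℝ) / J))
      rw [h1]
      linarith)
  calc ∑ j ∈ Finset.range J, wK k (Real.log (X * (1 + (j : ℝ) / J))) n ≤
      ∑ j ∈ Finset.range J, 2 * lam * Real.exp 2 / n *
        Real.exp (-(lam * |Real.log n - Real.log (X * (1 + (j : ℝ) / J))|)) :=
        Finset.sum_le_sum hterm
    _ = 2 * lam * Real.exp 2 / n * ∑ j ∈ Finset.range J,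
        Real.exp (-(lam * |Real.log n - Real.log (X * (1 + (j : ℝ) / J))|)) := by
        rw [Finset.mul_sum]
    _ ≤ 2 * lam * Real.exp 2 / n * (10 * J / lam) := by
        apply mul_le_mul_of_nonneg_left _ (by positivity)
        refine hsep.trans ?_
        have h1 : 1 ≤ J / lam := by rw [le_div_iff₀ hlam0]; linarith
        have h2 : 2 / (lam * (1 / (2 * J))) = 4 * (J / lam) := by field_simp; ring
        rw [h2]
        have h3 : 10 * (J : ℝ) / lam = 10 * (J / lam) := by ring
        rw [h3]
        linarith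
    _ = _ := by field_simp; ring


end Pool.Agent.GA
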