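import Pool.Agent.Lib_helper46.GA.X9
import Pool.Agent.Lib_helper46.GA.X9S

/-!
# GA part X: the weights for a grid of centres
-/

set_option autoImplicit false
set_option linter.unusedSectionVars false

namespace Pool.Agent.GA

open Finset Complex Metric Filter
open scoped ArithmeticFunction.vonMangoldt Classical Topology

/-- **The weights for a grid of centres**: the sum over the grid of the weights of each integer is
bounded. -/
theorem gal_weights_grid {c₁ : ℝ} (hc₁ : 0 < c₁) :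
    ∃ C : ℝ, 1 ≤ C ∧ ∃ κ₀ : ℝ, 0 < κ₀ ∧ ∀ κ : ℝ, 0 < κ → κ ≤ κ₀ →
    ∃ X₀ : ℕ, ∀ X : ℕ, X₀ ≤ X → Good c₁ ⌊(X : ℝ) ^ (124 * κ)⌋₊ →
    ∀ J : ℕ, (X : ℝ) ^ (40 * κ) ≤ J → ∃ (P : ℕ → Finset ℕ) (u : ℕ → ℕ → ℝ),
      (∀ j < J, (∀ p ∈ P j, p.Prime ∧
          |Real.log ((p : ℝ) / (X * (1 + (j : ℝ) / J)))| ≤ ((X : ℝ) ^ κ) ^ (-33 : ℝ) ∧ 0 < u j p ∧
          u j p ≤ ((X : ℝ) ^ κ) ^ (34 : ℝ) / X) ∧
        ∑ p ∈ P j, u j p = 1 ∧
        ∑ q ∈ Icc 1 ⌊(X : ℝ) ^ (124 * κ)⌋₊, ∑ χ ∈ Prm q,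
          ‖∑ p ∈ P j, ((u j p : ℝ) : ℂ) * χ (p : ZMod q)‖ ≤ 1 / 4) ∧
      ∀ n : ℕ, ∑ j ∈ (Finset.range J).filter (fun j => n ∈ P j), u j n ≤
        C * J * Real.log n / n := by
  obtain ⟨C, hC, c, hc, κ₀, hκ₀, h⟩ := gal_weights_wK hc₁
  have hl : 0 < Real.log (4 * C) := Real.log_pos (by linarith)
  refine ⟨40 * Real.exp 2, by
      have := Real.one_le_exp (show (0 : ℝ) ≤ 2 by norm_num)
      linarith, min κ₀ (c / Real.log (4 * C)), by positivity, fun κ hκ hκ' => ?_⟩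
  obtain ⟨X₀, hX⟩ := h κ hκ (hκ'.trans (min_le_left _ _))
  refine ⟨X₀, fun X hXX hg J hJ' => ?_⟩
  obtain ⟨hX8, k, hk, hkJ, hw⟩ := hX X hXX hg
  have hXR : (8 : ℝ) ≤ X := by exact_mod_cast hX8
  have hX0 : (0 : ℝ) < X := by linarith
  have hJ : ((X : ℝ) ^ κ) ^ (34 : ℕ) ≤ J := by
    refine le_trans ?_ hJ'
    rw [← Real.rpow_natCast, ← Real.rpow_mul hX0.le]
    apply Real.rpow_le_rpow_of_exponent_le (by linarith)
    push_cast
    linarith
  have h4 : C * Real.exp (-(c / κ)) ≤ 1 / 4 := by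
    have h3 : Real.log (4 * C) ≤ c / κ := by
      have h4 := hκ'.trans (min_le_right _ _)
      rw [le_div_iff₀ hl] at h4
      rw [le_div_iff₀ hκ]
      linarith
    have h4 : Real.exp (-(c / κ)) ≤ (4 * C)⁻¹ := by
      rw [← Real.exp_log (show (0 : ℝ) < 4 * C by positivity), ← Real.exp_neg]
      exact Real.exp_le_exp.2 (by linarith)
    calc C * Real.exp (-(c / κ)) ≤ C * (4 * C)⁻¹ := mul_le_mul_of_nonneg_left h4 (by linarith)
      _ = 1 / 4 := by
        have : C ≠ 0 := by positivity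
        field_simp
  have hJ0 : 0 < J := by
    have h5 : (0 : ℝ) < J := lt_of_lt_of_le (by positivity) hJ
    exact_mod_cast h5
  have hcen : ∀ j < J, (X : ℝ) ≤ X * (1 + (j : ℝ) / J) ∧ X * (1 + (j : ℝ) / J) ≤ 2 * X := by
    intro j hj
    have h5 : (0 : ℝ) ≤ (j : ℝ) / J := by positivity
    have h6 : (j : ℝ) / J ≤ 1 := by
      rw [div_le_one (by exact_mod_cast hJ0)]
      exact_mod_cast hj.le
    constructor <;> nlinarith
  have hch : ∀ j : ℕ, ∃ (P : Finset ℕ) (u : ℕ → ℝ), j < J →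
      ((∀ p ∈ P, p.Prime ∧
          |Real.log ((p : ℝ) / (X * (1 + (j : ℝ) / J)))| ≤ ((X : ℝ) ^ κ) ^ (-33 : ℝ) ∧ 0 < u p ∧
          u p ≤ ((X : ℝ) ^ κ) ^ (34 : ℝ) / X ∧
          u p ≤ 2 * (Real.log p * wK k (Real.log (X * (1 + (j : ℝ) / J))) p)) ∧
        ∑ p ∈ P, u p = 1 ∧
        ∑ q ∈ Icc 1 ⌊(X : ℝ) ^ (124 * κ)⌋₊, ∑ χ ∈ Prm q,
          ‖∑ p ∈ P, ((u p : ℝ) : ℂ) * χ (p : ZMod q)‖ ≤ C * Real.exp (-(c / κ))) := by
    intro j
    by_cases hj : j < J
    · obtain ⟨P, u, h5⟩ := hw _ (hcen j hj).1 (hcen j hj).2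
      exact ⟨P, u, fun _ => h5⟩
    · exact ⟨∅, fun _ => 0, fun h5 => absurd h5 hj⟩
  choose P u hPu using hch
  refine ⟨P, u, fun j hj => ?_, fun n => ?_⟩
  · obtain ⟨h5, h6, h7⟩ := hPu j hj
    exact ⟨fun p hp => ⟨(h5 p hp).1, (h5 p hp).2.1, (h5 p hp).2.2.1, (h5 p hp).2.2.2.1⟩, h6,
      h7.trans h4⟩
  · rcases Nat.eq_zero_or_pos n with rfl | hn
    · have h5 : (Finset.range J).filter (fun j => 0 ∈ P j) = ∅ := by
        rw [Finset.filter_eq_empty_iff]
        intro j hj h0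
        exact Nat.not_prime_zero ((hPu j (Finset.mem_range.1 hj)).1 0 h0).1
      rw [h5]
      simp
    have hln : 0 ≤ Real.log n := Real.log_natCast_nonneg n
    have hM0 : ∀ j ∈ Finset.range J, 0 ≤ wK k (Real.log (X * (1 + (j : ℝ) / J))) n := by
      intro j hj
      apply wK_nonneg
      apply Real.log_pos
      have := (hcen j (Finset.mem_range.1 hj)).1
      linarith
    calc ∑ j ∈ (Finset.range J).filter (fun j => n ∈ P j), u j n ≤
        ∑ j ∈ (Finset.range J).filter (fun j => n ∈ P j),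
          2 * Real.log n * wK k (Real.log (X * (1 + (j : ℝ) / J))) n := by
          refine Finset.sum_le_sum fun j hj => ?_
          rw [Finset.mem_filter, Finset.mem_range] at hj
          have := ((hPu j hj.1).1 n hj.2).2.2.2.2
          linarith
      _ ≤ ∑ j ∈ Finset.range J,
          2 * Real.log n * wK k (Real.log (X * (1 + (j : ℝ) / J))) n := by
          refine Finset.sum_le_sum_of_subset_of_nonneg (Finset.filter_subset _ _) ?_
          intro j hj _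
          exact mul_nonneg (by positivity) (hM0 j hj)
      _ = 2 * Real.log n * ∑ j ∈ Finset.range J,
          wK k (Real.log (X * (1 + (j : ℝ) / J))) n := by rw [Finset.mul_sum]
      _ ≤ 2 * Real.log n * (20 * Real.exp 2 * J / n) := by
          apply mul_le_mul_of_nonneg_left _ (by positivity)
          exact x9_grid hX8 hk (hkJ.trans hJ) hn
      _ = _ := by ring

end Pool.Agent.GA
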