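import Pool.Agent.Lib_helper98.GAF.Final

/-!
# GA part X, file 11: Gallagher's theorem, uniformly in the centre and the width of the windows
-/

set_option autoImplicit false
set_option linter.unusedSectionVars false

namespace Pool.Agent.GA

open Finset Complex Metric
open scoped ArithmeticFunction.vonMangoldt Classical

theorem x11_re {f : ℂ → ℂ} {a T : ℝ} {ρ : ℂ} (hρ : ρ ∈ zr f a T) : ρ.re ≤ 1 := by
  unfold zr at hρ
  split_ifs at hρ with h
  · rw [Set.Finite.mem_toFinset] at hρ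
    exact hρ.2.2.1
  · simp at hρ

/-- **Gallagher's theorem with a supremum over the windows**: the sum over the nontrivial primitive
characters of conductor at most `D` of a common bound for all windows with centre at least
`exp M₀`. -/
theorem gal_SKP_sup : ∀ c₁ : ℝ, 0 < c₁ → ∃ C : ℝ, 1 ≤ C ∧ ∃ c : ℝ, 0 < c ∧ ∃ A : ℝ, 1 ≤ A ∧
    ∀ D : ℕ, 4 ≤ D → Good c₁ D → ∀ M₀ : ℝ, 2 ≤ M₀ → A * Real.log D ≤ M₀ →
    ∃ ε : (q : ℕ) → DirichletCharacter ℂ q → ℝ, (∀ q χ, 0 ≤ ε q χ) ∧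
      ∑ q ∈ Icc 1 D, ∑ χ ∈ Prm q, ε q χ ≤ C * Real.exp (-(c * M₀ / Real.log D)) ∧
      ∀ q ∈ Icc 1 D, ∀ χ ∈ Prm q, ∀ (k : ℕ) (M t : ℝ), M₀ ≤ M → M ^ 2 ≤ k →
        4 * k ≤ D ^ 2 * M → |t| ≤ D / 2 → ‖SKP χ k M t‖ ≤ ε q χ := by
  intro c₁ hc₁
  obtain ⟨Cd, hCd, hden⟩ := density
  obtain ⟨c₀, hc₀, hzf⟩ := zero_free_good c₁ hc₁
  obtain ⟨C₁, hC₁, hone⟩ := x3_one
  obtain ⟨C₂, hC₂, hpp⟩ := x3_SK_sub_SKP
  refine ⟨2 * Real.exp (2 * Cd) + 1000000 * C₁ + C₂, by
      have := Real.exp_pos (2 * Cd)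
      nlinarith, min (c₀ / 8) (1 / 264), by positivity,
    max (8 * Cd + 8) 1500, le_trans (by norm_num) (le_max_right _ _),
    fun D hD hgood M₀ hM2 hMA => ?_⟩
  have hD2 : 2 ≤ D := by omega
  have hDR : (4 : ℝ) ≤ D := by exact_mod_cast hD
  set L : ℝ := Real.log D with hL
  have hL0 : 0 < L := Real.log_pos (by linarith)
  set K : ℝ := M₀ / L with hK
  have hKL : K * L = M₀ := by rw [hK]; field_simp
  have hM1500 : 1500 * L ≤ M₀ := by
    have := mul_le_mul_of_nonneg_right (le_max_right (8 * Cd + 8) 1500) hL0.le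
    linarith
  have hMCd : 8 * Cd + 8 ≤ K := by
    rw [hK, le_div_iff₀ hL0]
    have := mul_le_mul_of_nonneg_right (le_max_left (8 * Cd + 8) 1500) hL0.le
    linarith
  have hne : ∀ q ∈ Icc 1 D, NeZero q := fun q hq => ⟨by
    have := (Finset.mem_Icc.1 hq).1
    omega⟩
  have hDsq : (0 : ℝ) < (D : ℝ) ^ 2 := by positivity
  set E : ℝ := 1000000 * C₁ * Real.exp (-(M₀ / 132)) / (D : ℝ) ^ 2 +
    C₂ * Real.exp (-(M₀ / 8)) / (D : ℝ) ^ 2 with hE
  have hE0 : 0 ≤ E := by positivity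
  have hmlt : ∀ (q : ℕ) (χ : DirichletCharacter ℂ q) (ρ : ℂ), 0 ≤ mlt (LF χ) ρ := fun _ _ _ =>
    Nat.cast_nonneg _
  refine ⟨fun q χ => ∑ ρ ∈ zr (LF χ) (1 / 16) D,
      mlt (LF χ) ρ * Real.exp (-(K * L * (1 - ρ.re) / 4)) + E, fun q χ => ?_, ?_, ?_⟩
  · have : 0 ≤ ∑ ρ ∈ zr (LF χ) (1 / 16) D,
        mlt (LF χ) ρ * Real.exp (-(K * L * (1 - ρ.re) / 4)) :=
      Finset.sum_nonneg fun ρ _ => mul_nonneg (hmlt q χ ρ) (Real.exp_pos _).le
    linarith
  · -- the sum over the characters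
    have hcard : ∑ q ∈ Icc 1 D, ∑ _χ ∈ Prm q, E ≤ 1000000 * C₁ * Real.exp (-(M₀ / 132)) +
        C₂ * Real.exp (-(M₀ / 8)) := by
      refine (x7_card (D := D) hE0).trans ?_
      rw [hE, mul_add, mul_div_cancel₀ _ hDsq.ne', mul_div_cancel₀ _ hDsq.ne']
    have hzeros : ∑ q ∈ Icc 1 D, ∑ χ ∈ Prm q, ∑ ρ ∈ zr (LF χ) (1 / 16) D,
        mlt (LF χ) ρ * Real.exp (-(K * L * (1 - ρ.re) / 4)) ≤
        2 * Real.exp (2 * Cd) * Real.exp (-(c₀ * K / 8)) := by
      have h2 := x2_zero_sum ((Icc 1 D).sigma Prm) (fun i => LF i.2) (fun _ => 2)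
        (D := D) (L := L) (K := K) (c₀ := c₀) (Cd := Cd) ?_ ?_ hL0 (by linarith) hMCd ?_ ?_
      · rw [Finset.sum_sigma] at h2
        exact h2
      · rintro ⟨q, χ⟩ hi
        rw [Finset.mem_sigma] at hi
        have := hne q hi.1
        exact LF_diff (z3_Prm hi.2).2
      · rintro ⟨q, χ⟩ hi
        rw [Finset.mem_sigma] at hi
        have := hne q hi.1
        exact LF_ne_zero (z3_Prm hi.2).2 (by norm_num)
      · rintro ⟨q, χ⟩ hi ρ hρ him
        rw [Finset.mem_sigma] at hi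
        exact hzf D hD2 hgood q hi.1 χ hi.2 ρ hρ him
      · intro δ hδ hδ1
        rw [Finset.sum_sigma]
        exact hden D hD2 δ hδ hδ1
    calc ∑ q ∈ Icc 1 D, ∑ χ ∈ Prm q, (∑ ρ ∈ zr (LF χ) (1 / 16) D,
          mlt (LF χ) ρ * Real.exp (-(K * L * (1 - ρ.re) / 4)) + E) =
        ∑ q ∈ Icc 1 D, ∑ χ ∈ Prm q, (∑ ρ ∈ zr (LF χ) (1 / 16) D,
          mlt (LF χ) ρ * Real.exp (-(K * L * (1 - ρ.re) / 4))) +
          ∑ q ∈ Icc 1 D, ∑ χ ∈ Prm q, E := by
          rw [← Finset.sum_add_distrib]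
          exact Finset.sum_congr rfl fun q _ => Finset.sum_add_distrib
      _ ≤ 2 * Real.exp (2 * Cd) * Real.exp (-(c₀ * K / 8)) +
          (1000000 * C₁ * Real.exp (-(M₀ / 132)) + C₂ * Real.exp (-(M₀ / 8))) := by linarith
      _ ≤ 2 * Real.exp (2 * Cd) * Real.exp (-(min (c₀ / 8) (1 / 264) * M₀ / L)) +
          (1000000 * C₁ * Real.exp (-(min (c₀ / 8) (1 / 264) * M₀ / L)) +
            C₂ * Real.exp (-(min (c₀ / 8) (1 / 264) * M₀ / L))) := by
          have h5 : Real.exp (-(c₀ * K / 8)) ≤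
              Real.exp (-(min (c₀ / 8) (1 / 264) * M₀ / L)) := by
            apply Real.exp_le_exp.2
            have h6 : min (c₀ / 8) (1 / 264) * M₀ / L = min (c₀ / 8) (1 / 264) * K := by
              rw [hK]; ring
            rw [h6]
            have h7 : 0 ≤ K := by positivity
            have := mul_le_mul_of_nonneg_right (min_le_left (c₀ / 8) (1 / 264)) h7
            linarith
          have h6 : Real.exp (-(M₀ / 132)) ≤
              Real.exp (-(min (c₀ / 8) (1 / 264) * M₀ / L)) := by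
            have h7 := x4_exp hD2 (a := 1 / 132) (c := min (c₀ / 8) (1 / 264)) (M := M₀)
              (by linarith) (by
                have := min_le_right (c₀ / 8) (1 / 264)
                linarith) (by positivity)
            have e : (1 / 132 : ℝ) * M₀ = M₀ / 132 := by ring
            rw [e] at h7
            exact h7
          have h8 : Real.exp (-(M₀ / 8)) ≤
              Real.exp (-(min (c₀ / 8) (1 / 264) * M₀ / L)) := by
            refine le_trans (Real.exp_le_exp.2 ?_) h6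
            linarith
          gcongr
      _ = _ := by ring
  · -- the individual bounds
    intro q hq χ hχ k M t hM hk hk4 ht
    have := hne q hq
    obtain ⟨-, hχ1⟩ := z3_Prm hχ
    have hM0 : 2 ≤ M := hM2.trans hM
    have hk0 : (0 : ℝ) < k := by nlinarith
    have hσ1 : k / M ≤ (D / 2 : ℝ) ^ 2 := by
      rw [div_le_iff₀ (by linarith)]; nlinarith
    have hsq : Real.sqrt (k / M) ≤ D / 2 := by
      rw [Real.sqrt_le_left (by linarith)]; exact hσ1
    have h2 := hone q χ hχ1 k M t D (by linarith) hk (by linarith)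
    have h3 := x3_err hC₁ hD2 (by linarith) (hM1500.trans hM) hk hk4 ht (q := q)
      (by exact_mod_cast (Finset.mem_Icc.1 hq).1) (by exact_mod_cast (Finset.mem_Icc.1 hq).2)
    have h4 : 72 * (k + 1) * (k / M) * Real.log (3 * (C₁ * q) *
        (2 * (k / M) + |t| + 4) ^ 2) * Real.exp (-(M / 33)) ≤
        1000000 * C₁ * Real.exp (-(M₀ / 132)) / (D : ℝ) ^ 2 := by
      rw [le_div_iff₀ hDsq]
      have h5 : Real.exp (-(M / 132)) ≤ Real.exp (-(M₀ / 132)) :=
        Real.exp_le_exp.2 (by linarith)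
      have h6 : 1000000 * C₁ * Real.exp (-(M / 132)) ≤
          1000000 * C₁ * Real.exp (-(M₀ / 132)) := by gcongr
      linarith
    have h7 : ∑ ρ ∈ zr (LF χ) (1 / 16) D, mlt (LF χ) ρ * Real.exp (-(M * (1 - ρ.re) / 4)) ≤
        ∑ ρ ∈ zr (LF χ) (1 / 16) D, mlt (LF χ) ρ * Real.exp (-(K * L * (1 - ρ.re) / 4)) := by
      refine Finset.sum_le_sum fun ρ hρ => ?_
      apply mul_le_mul_of_nonneg_left _ (hmlt q χ ρ)
      apply Real.exp_le_exp.2
      rw [hKL]
      have h8 : ρ.re ≤ 1 := x11_re hρ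
      have h9 : M₀ * (1 - ρ.re) ≤ M * (1 - ρ.re) :=
        mul_le_mul_of_nonneg_right hM (by linarith)
      linarith
    have h10 : C₂ * (k / M / Real.sqrt k) * Real.exp (-(M / 4)) ≤
        C₂ * Real.exp (-(M₀ / 8)) / (D : ℝ) ^ 2 := by
      rw [le_div_iff₀ hDsq]
      have h1 : k / M / Real.sqrt k ≤ (D : ℝ) ^ 2 := by
        have h2 : k / M ≤ (D : ℝ) ^ 2 / 4 := by
          rw [div_le_iff₀ (by linarith)]; linarith
        have h3 : 1 ≤ Real.sqrt k := by
          rw [Real.one_le_sqrt]; nlinarith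
        refine (div_le_self (by positivity) h3).trans ?_
        linarith
      have h2 : (D : ℝ) ^ 4 * Real.exp (-((1 / 8) * M)) ≤ 1 :=
        x3_pow hD2 rfl (by norm_num) (by push_cast; linarith)
      have h3 : Real.exp (-(M / 4)) = Real.exp (-((1 / 8) * M)) * Real.exp (-(M / 8)) := by
        rw [← Real.exp_add]; congr 1; ring
      calc C₂ * (k / M / Real.sqrt k) * Real.exp (-(M / 4)) * (D : ℝ) ^ 2 ≤
          C₂ * (D : ℝ) ^ 2 * Real.exp (-(M / 4)) * (D : ℝ) ^ 2 := by gcongr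
        _ = C₂ * ((D : ℝ) ^ 4 * Real.exp (-((1 / 8) * M))) * Real.exp (-(M / 8)) := by
            rw [h3]; ring
        _ ≤ C₂ * 1 * Real.exp (-(M / 8)) := by gcongr
        _ ≤ C₂ * Real.exp (-(M₀ / 8)) := by
            rw [mul_one]
            apply mul_le_mul_of_nonneg_left _ (by linarith)
            exact Real.exp_le_exp.2 (by linarith)
    have h11 := hpp q χ k M t hM0 hk
    have h12 := norm_sub_norm_le (SKP χ k M t) (SK χ k M t)
    rw [norm_sub_rev] at h12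
    simp only
    rw [hE]
    linarith

end Pool.Agent.GA
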