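import Pool.Agent.Lib_helper46.GA.X11
import Pool.Agent.Lib_helper46.GA.X9S

/-!
# GA part X, file 12: the weights, uniformly in the centre
-/

set_option autoImplicit false
set_option linter.unusedSectionVars false

namespace Pool.Agent.GA

open Finset Complex Metric Filter
open scoped ArithmeticFunction.vonMangoldt Classical Topology

/-- the weights, non-asymptotic form, uniformly in the windows -/
theorem x12_core {c₁ : ℝ} (hc₁ : 0 < c₁) :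
    ∃ C : ℝ, 1 ≤ C ∧ ∃ c : ℝ, 0 < c ∧ ∃ A : ℝ, 1 ≤ A ∧
    ∀ D : ℕ, 4 ≤ D → Good c₁ D → ∀ M₀ : ℝ, 2 ≤ M₀ → A * Real.log D ≤ M₀ →
    C * Real.exp (-(c * M₀ / Real.log D)) ≤ 1 / 16 →
    ∃ ε : (q : ℕ) → DirichletCharacter ℂ q → ℝ, (∀ q χ, 0 ≤ ε q χ) ∧
      ∑ q ∈ Icc 1 D, ∑ χ ∈ Prm q, ε q χ ≤ C * Real.exp (-(c * M₀ / Real.log D)) ∧
      ∀ (k : ℕ) (M Δ T₀ : ℝ), M₀ ≤ M → M ^ 2 ≤ k → 4 * k ≤ D ^ 2 * M → 0 < Δ → Δ ≤ 1 →
        32 * M ^ 2 ≤ Δ * k → T₀ ≤ 1 / 16 →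
        C * (k / M / Real.sqrt k) * Real.exp (2 * M - Δ ^ 2 * k / (32 * M ^ 2)) ≤ T₀ →
        ∃ u : ℕ → ℝ, (∀ p ∈ PW M Δ, 0 < u p ∧ u p ≤ 2 * (Real.log p * wK k M p)) ∧
          ∑ p ∈ PW M Δ, u p = 1 ∧
          ∀ q ∈ Icc 1 D, ∀ χ ∈ Prm q,
            ‖∑ p ∈ PW M Δ, ((u p : ℝ) : ℂ) * χ (p : ZMod q)‖ ≤ 2 * (ε q χ + T₀) := by
  obtain ⟨Ca, hCa, ca, hca, Aa, hAa, ha⟩ := gal_SKP_sup c₁ hc₁
  obtain ⟨Cb, hCb, cb, hcb, Ab, hAb, hb⟩ := gal_zeta density_zeta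
  obtain ⟨Ct, hCt, ht⟩ := x6_trunc
  refine ⟨max Ca (max Cb Ct), le_trans hCa (le_max_left _ _), min ca cb, lt_min hca hcb,
    max Aa Ab, le_trans hAa (le_max_left _ _),
    fun D hD hgood M₀ hM2 hAM h1 => ?_⟩
  set C := max Ca (max Cb Ct) with hC
  set c := min ca cb with hc
  have hDR : (4 : ℝ) ≤ D := by exact_mod_cast hD
  set L : ℝ := Real.log D with hL
  have hL0 : 0 < L := Real.log_pos (by linarith)
  have hCa' : Ca ≤ C := le_max_left _ _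
  have hCb' : Cb ≤ C := le_trans (le_max_left _ _) (le_max_right _ _)
  have hCt' : Ct ≤ C := le_trans (le_max_right _ _) (le_max_right _ _)
  have hC0 : 0 < C := by linarith
  have hAa' : Aa * L ≤ M₀ :=
    (mul_le_mul_of_nonneg_right (le_max_left Aa Ab) hL0.le).trans hAM
  have hAb' : Ab * L ≤ M₀ :=
    (mul_le_mul_of_nonneg_right (le_max_right Aa Ab) hL0.le).trans hAM
  have hexp : ∀ {c' M : ℝ}, c ≤ c' → M₀ ≤ M →
      Real.exp (-(c' * M / L)) ≤ Real.exp (-(c * M₀ / L)) := by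
    intro c' M hc' hM
    apply Real.exp_le_exp.2
    have hc0 : 0 < c := lt_min hca hcb
    have : c * M₀ / L ≤ c' * M / L := by
      apply div_le_div_of_nonneg_right _ hL0.le
      exact mul_le_mul hc' hM (by linarith) (by linarith)
    linarith
  obtain ⟨ε, hε0, hεs, hεb⟩ := ha D hD hgood M₀ hM2 hAa'
  refine ⟨ε, hε0, ?_, ?_⟩
  · refine hεs.trans ?_
    exact mul_le_mul hCa' (hexp (min_le_left _ _) le_rfl) (Real.exp_pos _).le hC0.le
  intro k M Δ T₀ hM hk hk4 hΔ hΔ1 hkΔ hT16 hT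
  have hM2' : 2 ≤ M := hM2.trans hM
  have hk0 : (0 : ℝ) < k := by nlinarith
  have hk1 : 1 ≤ k := by
    have : (0 : ℝ) < k := hk0
    exact_mod_cast this
  have hb1 := hb D hD k M hM2' (hAb'.trans hM) hk hk4 0 (by rw [abs_zero]; linarith)
  have hkM : (((k / M : ℝ) : ℂ) / (((k / M : ℝ) : ℂ) + ((0 : ℝ) : ℂ) * I)) ^ (k + 1) = 1 := by
    have h3 : ((k / M : ℝ) : ℂ) ≠ 0 := by
      rw [Ne, Complex.ofReal_eq_zero]
      positivity
    rw [Complex.ofReal_zero, zero_mul, add_zero, div_self h3, one_pow]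
  rw [hkM] at hb1
  have hb2 : ‖SKP (1 : DirichletCharacter ℂ 1) k M 0 - 1‖ ≤ 1 / 16 := by
    refine hb1.trans (le_trans ?_ h1)
    exact mul_le_mul hCb' (hexp (min_le_right _ _) hM) (Real.exp_pos _).le hC0.le
  have ht' : ∀ (q : ℕ) [NeZero q] (χ : DirichletCharacter ℂ q),
      ‖SKP χ k M 0 - ∑ p ∈ PW M Δ, ((Real.log p * wK k M p : ℝ) : ℂ) * χ (p : ZMod q)‖ ≤
        T₀ := by
    intro q _ χ
    refine (ht q χ k M Δ hM2' hΔ hΔ1 hkΔ).trans (le_trans ?_ hT)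
    gcongr
  set W : ℝ := ∑ p ∈ PW M Δ, Real.log p * wK k M p with hW
  have hW1 : ‖(W : ℂ) - 1‖ ≤ 1 / 8 := by
    have h3 := ht' 1 (1 : DirichletCharacter ℂ 1)
    have h4 : ∑ p ∈ PW M Δ, ((Real.log p * wK k M p : ℝ) : ℂ) *
        (1 : DirichletCharacter ℂ 1) (p : ZMod 1) = (W : ℂ) := by
      rw [hW, Complex.ofReal_sum]
      refine Finset.sum_congr rfl fun p _ => ?_
      have : (1 : DirichletCharacter ℂ 1) (p : ZMod 1) = 1 :=
        MulChar.one_apply (isUnit_of_subsingleton _)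
      rw [this, mul_one]
    rw [h4] at h3
    have h5 : (W : ℂ) - 1 = -(SKP (1 : DirichletCharacter ℂ 1) k M 0 - W) +
        (SKP (1 : DirichletCharacter ℂ 1) k M 0 - 1) := by ring
    rw [h5]
    refine (norm_add_le _ _).trans ?_
    rw [norm_neg]
    linarith
  have hW2 : 1 / 2 ≤ W := by
    have h3 : ‖((W - 1 : ℝ) : ℂ)‖ ≤ 1 / 8 := by push_cast; exact hW1
    rw [Complex.norm_real, Real.norm_eq_abs] at h3
    have := (abs_le.1 h3).1
    linarith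
  have hW0 : 0 < W := by linarith
  have hWinv : W⁻¹ ≤ 2 := by
    rw [inv_le_comm₀ hW0 (by norm_num)]
    linarith
  refine ⟨fun p => Real.log p * wK k M p / W, fun p hp => ?_, ?_, ?_⟩
  · have hpp := (mem_PW.1 hp).1
    have hlp : 0 < Real.log p := Real.log_pos (by exact_mod_cast hpp.one_lt)
    refine ⟨div_pos (mul_pos hlp (wK_pos (by linarith) hk1 hpp.two_le)) hW0, ?_⟩
    have h5 : 0 ≤ wK k M p := wK_nonneg (by linarith) p
    calc Real.log p * wK k M p / W = W⁻¹ * (Real.log p * wK k M p) := by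
          rw [div_eq_inv_mul]
      _ ≤ 2 * (Real.log p * wK k M p) := by gcongr
  · rw [← Finset.sum_div, ← hW, div_self hW0.ne']
  · intro q hq χ hχ
    have : NeZero q := ⟨by
      have := (Finset.mem_Icc.1 hq).1
      omega⟩
    have h4 : ∑ p ∈ PW M Δ, ((Real.log p * wK k M p / W : ℝ) : ℂ) * χ (p : ZMod q) =
        ((W⁻¹ : ℝ) : ℂ) * ∑ p ∈ PW M Δ, ((Real.log p * wK k M p : ℝ) : ℂ) *
          χ (p : ZMod q) := by
      rw [Finset.mul_sum]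
      refine Finset.sum_congr rfl fun p _ => ?_
      rw [div_eq_inv_mul]
      push_cast
      ring
    rw [h4, norm_mul, Complex.norm_real, Real.norm_of_nonneg (by positivity)]
    have h5 := ht' q χ
    have h6 : ‖∑ p ∈ PW M Δ, ((Real.log p * wK k M p : ℝ) : ℂ) * χ (p : ZMod q)‖ ≤
        ε q χ + T₀ := by
      have h7 := norm_sub_norm_le (∑ p ∈ PW M Δ, ((Real.log p * wK k M p : ℝ) : ℂ) *
        χ (p : ZMod q)) (SKP χ k M 0)
      rw [norm_sub_rev] at h7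
      have h8 := hεb q hq χ hχ k M 0 hM hk hk4 (by rw [abs_zero]; linarith)
      linarith
    exact mul_le_mul hWinv h6 (norm_nonneg _) (by norm_num)

/-- the conditions on `X`, for fixed parameters -/
theorem x12_eventually {κ v ε C : ℝ} (hκ : 0 < κ) (hv : 0 < v) (hε : 0 < ε) :
    ∀ᶠ X : ℕ in atTop, (8 : ℝ) ≤ X ∧ 2 ≤ v * Real.log X ∧ 32 ≤ (X : ℝ) ^ κ ∧
      16 * Real.exp 3 * (Real.log X + 1) ≤ ((X : ℝ) ^ κ) ^ (1 / 2 : ℝ) ∧
      C * (((X : ℝ) ^ κ) ^ (282 + 4 / κ) * Real.exp (-(1 / 32) * (X : ℝ) ^ κ)) ≤ ε := by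
  have hX : Tendsto (fun X : ℕ => (X : ℝ)) atTop atTop := tendsto_natCast_atTop_atTop
  have hY : Tendsto (fun X : ℕ => (X : ℝ) ^ κ) atTop atTop := (tendsto_rpow_atTop hκ).comp hX
  have h1 : ∀ᶠ X : ℕ in atTop, (8 : ℝ) ≤ X := hX.eventually_ge_atTop 8
  have h2 : ∀ᶠ X : ℕ in atTop, (32 : ℝ) ≤ (X : ℝ) ^ κ := hY.eventually_ge_atTop 32
  have h0 : ∀ᶠ X : ℕ in atTop, 2 ≤ v * Real.log X :=
    ((Real.tendsto_log_atTop.comp hX).const_mul_atTop hv).eventually_ge_atTop 2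
  have h3 : ∀ᶠ X : ℕ in atTop, 16 * Real.exp 3 * (Real.log X + 1) ≤
      ((X : ℝ) ^ κ) ^ (1 / 2 : ℝ) := by
    have h4 : ∀ᶠ x : ℝ in atTop, Real.log x ≤ (32 * Real.exp 3)⁻¹ * x ^ (κ / 2) := by
      have h5 := (isLittleO_log_rpow_atTop (r := κ / 2) (by positivity)).bound
        (c := (32 * Real.exp 3)⁻¹) (by positivity)
      filter_upwards [h5, eventually_ge_atTop (1 : ℝ)] with x hx hx1
      rw [Real.norm_eq_abs, Real.norm_eq_abs, abs_of_nonneg (Real.log_nonneg hx1),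
        abs_of_nonneg (by positivity)] at hx
      exact hx
    have h6 : ∀ᶠ x : ℝ in atTop, 16 * Real.exp 3 ≤ 1 / 2 * x ^ (κ / 2) := by
      have h7 := (tendsto_rpow_atTop (y := κ / 2) (by positivity)).const_mul_atTop
        (show (0 : ℝ) < 1 / 2 by norm_num)
      exact h7.eventually_ge_atTop _
    filter_upwards [hX.eventually h4, hX.eventually h6, h1] with X hX4 hX6 hX1
    have hX0 : (0 : ℝ) < X := by linarith
    rw [← Real.rpow_mul hX0.le]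
    have e1 : κ * (1 / 2) = κ / 2 := by ring
    rw [e1]
    have he : 0 < Real.exp 3 := Real.exp_pos _
    have h8 : 16 * Real.exp 3 * Real.log X ≤ 1 / 2 * (X : ℝ) ^ (κ / 2) := by
      calc 16 * Real.exp 3 * Real.log X ≤
          16 * Real.exp 3 * ((32 * Real.exp 3)⁻¹ * (X : ℝ) ^ (κ / 2)) := by gcongr
        _ = _ := by field_simp; norm_num
    linarith
  have h4 : ∀ᶠ X : ℕ in atTop,
      C * (((X : ℝ) ^ κ) ^ (282 + 4 / κ) * Real.exp (-(1 / 32) * (X : ℝ) ^ κ)) ≤ ε := by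
    have h5 := ((tendsto_rpow_mul_exp_neg_mul_atTop_nhds_zero (282 + 4 / κ) (1 / 32)
      (by norm_num)).const_mul C).comp hY
    rw [mul_zero] at h5
    exact (h5.eventually (ge_mem_nhds hε)).mono fun X hX => hX
  filter_upwards [h1, h0, h2, h3, h4] with X a b c d e
  exact ⟨a, b, c, d, e⟩

/-- sizes of the parameters (`lX = log X`) -/
theorem x12_sizes {Y lX M : ℝ} {k D : ℕ} (hY32 : 32 ≤ Y)
    (hlogY : 16 * Real.exp 3 * (lX + 1) ≤ Y ^ (1 / 2 : ℝ)) (hlX : 0 < lX)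
    (hk : k = ⌈(2 * lX) ^ 2 * Y ^ (67 : ℕ)⌉₊) (hD : Y ^ (124 : ℕ) / 2 ≤ D) (hM2 : 2 ≤ M)
    (hM : M ≤ 2 * lX) :
    M ^ 2 ≤ k ∧ 4 * (k : ℝ) ≤ D ^ 2 * M ∧ 32 * M ^ 2 ≤ Y ^ (-33 : ℝ) * k ∧
      Y / 32 ≤ (Y ^ (-33 : ℝ)) ^ 2 * k / (32 * M ^ 2) ∧
      (k : ℝ) / M / Real.sqrt k = Real.sqrt k / M ∧
      Real.sqrt k ≤ 3 * lX * (Y ^ (33 : ℝ) * Y ^ (1 / 2 : ℝ)) ∧
      Real.sqrt k / M ≤ Y ^ (34 : ℕ) := by
  have hY0 : 0 < Y := by linarith
  have hY1 : 1 ≤ Y := by linarith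
  have hM0 : 0 < M := by linarith
  have hlX1 : 1 ≤ lX := by linarith
  have hYY : ∀ n : ℕ, 1 ≤ n → 32 ≤ Y ^ n := by
    intro n hn
    calc (32 : ℝ) ≤ Y := hY32
      _ = Y ^ 1 := (pow_one Y).symm
      _ ≤ Y ^ n := pow_le_pow_right₀ hY1 hn
  have hhalf : Y ^ (1 / 2 : ℝ) * Y ^ (1 / 2 : ℝ) = Y := by
    rw [← Real.rpow_add hY0]; norm_num
  have hhalf0 : 0 < Y ^ (1 / 2 : ℝ) := by positivity
  have he3 : 8 ≤ Real.exp 3 := by
    have h1 := Real.add_one_le_exp (1 : ℝ)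
    have h2 : Real.exp 3 = Real.exp 1 ^ 3 := by
      rw [← Real.exp_nat_mul]; norm_num
    rw [h2]
    have h3 : (2 : ℝ) ≤ Real.exp 1 := by linarith
    calc (8 : ℝ) = 2 ^ 3 := by norm_num
      _ ≤ Real.exp 1 ^ 3 := pow_le_pow_left₀ (by norm_num) h3 3
  have hlY : 128 * lX ≤ Y ^ (1 / 2 : ℝ) := by nlinarith
  have hMM : M ^ 2 ≤ (2 * lX) ^ 2 := pow_le_pow_left₀ hM0.le hM 2
  have hk1 : (2 * lX) ^ 2 * Y ^ (67 : ℕ) ≤ k := by rw [hk]; exact Nat.le_ceil _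
  have hbig : 8 ≤ lX ^ 2 * Y ^ (67 : ℕ) := by
    have := hYY 67 (by norm_num)
    have h1 : 1 ≤ lX ^ 2 := one_le_pow₀ hlX1
    nlinarith
  have hk2 : (k : ℝ) ≤ 9 * lX ^ 2 * Y ^ (67 : ℕ) := by
    have h1 : (k : ℝ) < (2 * lX) ^ 2 * Y ^ (67 : ℕ) + 1 := by
      rw [hk]; exact Nat.ceil_lt_add_one (by positivity)
    nlinarith
  have hk0 : (0 : ℝ) < k := by nlinarith
  have hYinv : Y ^ (-33 : ℝ) = (Y ^ (33 : ℕ))⁻¹ := by
    rw [Real.rpow_neg hY0.le, ← Real.rpow_natCast]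
    norm_num
  have hY67 : Y ^ (67 : ℕ) = (Y ^ (33 : ℝ) * Y ^ (1 / 2 : ℝ)) ^ 2 := by
    rw [← Real.rpow_add hY0, ← Real.rpow_natCast, ← Real.rpow_natCast, ← Real.rpow_mul hY0.le]
    norm_num
  have hsk : Real.sqrt k ≤ 3 * lX * (Y ^ (33 : ℝ) * Y ^ (1 / 2 : ℝ)) := by
    apply Real.sqrt_le_iff.2
    refine ⟨by positivity, hk2.trans (le_of_eq ?_)⟩
    rw [hY67]; ring
  refine ⟨?_, ?_, ?_, ?_, ?_, hsk, ?_⟩
  · refine (hMM.trans ?_).trans hk1
    exact le_mul_of_one_le_right (sq_nonneg _) (one_le_pow₀ hY1)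
  · have h1 : Y ^ (248 : ℕ) / 4 ≤ (D : ℝ) ^ 2 := by
      have h2 : (Y ^ (124 : ℕ) / 2) ^ 2 ≤ (D : ℝ) ^ 2 := pow_le_pow_left₀ (by positivity) hD 2
      calc Y ^ (248 : ℕ) / 4 = (Y ^ (124 : ℕ) / 2) ^ 2 := by ring
        _ ≤ _ := h2
    have h3 : 72 * lX ^ 2 * Y ^ (67 : ℕ) ≤ Y ^ (248 : ℕ) := by
      have h4 : Y ^ (248 : ℕ) = Y * Y ^ (67 : ℕ) * Y ^ (180 : ℕ) := by ring
      have h5 : 1 ≤ Y ^ (180 : ℕ) := one_le_pow₀ hY1
      have h6 : 72 * lX ^ 2 ≤ Y := by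
        have h7 : (128 * lX) * (128 * lX) ≤ Y := by
          rw [← hhalf]
          exact mul_le_mul hlY hlY (by positivity) hhalf0.le
        nlinarith
      rw [h4]
      calc 72 * lX ^ 2 * Y ^ (67 : ℕ) ≤ Y * Y ^ (67 : ℕ) := by gcongr
        _ ≤ Y * Y ^ (67 : ℕ) * Y ^ (180 : ℕ) := le_mul_of_one_le_right (by positivity) h5
    calc 4 * (k : ℝ) ≤ 4 * (9 * lX ^ 2 * Y ^ (67 : ℕ)) := by gcongr
      _ = (72 * lX ^ 2 * Y ^ (67 : ℕ)) / 4 * 2 := by ring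
      _ ≤ (Y ^ (248 : ℕ)) / 4 * M := by gcongr
      _ ≤ D ^ 2 * M := by gcongr
  · calc 32 * M ^ 2 ≤ Y ^ (34 : ℕ) * (2 * lX) ^ 2 := by
          have := hYY 34 (by norm_num)
          gcongr
      _ = Y ^ (-33 : ℝ) * ((2 * lX) ^ 2 * Y ^ (67 : ℕ)) := by
          rw [hYinv]; field_simp
      _ ≤ Y ^ (-33 : ℝ) * k := by gcongr
  · rw [div_le_div_iff₀ (by norm_num) (by positivity)]
    calc Y * (32 * M ^ 2) ≤ Y * (32 * (2 * lX) ^ 2) := by gcongr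
      _ = (Y ^ (-33 : ℝ)) ^ 2 * ((2 * lX) ^ 2 * Y ^ (67 : ℕ)) * 32 := by
          rw [hYinv]; field_simp
      _ ≤ (Y ^ (-33 : ℝ)) ^ 2 * k * 32 := by gcongr
  · rw [div_div, div_eq_div_iff (by positivity) hM0.ne']
    nth_rewrite 1 [← Real.mul_self_sqrt hk0.le]
    ring
  · have h4 : Y ^ (33 : ℝ) = Y ^ (33 : ℕ) := by
      rw [← Real.rpow_natCast]; norm_num
    have h5 : 3 * lX ≤ Y ^ (1 / 2 : ℝ) := by linarith
    calc Real.sqrt k / M ≤ Real.sqrt k := div_le_self (Real.sqrt_nonneg _) (by linarith)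
      _ ≤ 3 * lX * (Y ^ (33 : ℝ) * Y ^ (1 / 2 : ℝ)) := hsk
      _ ≤ Y ^ (1 / 2 : ℝ) * (Y ^ (33 : ℝ) * Y ^ (1 / 2 : ℝ)) := by gcongr
      _ = Y ^ (33 : ℕ) * (Y ^ (1 / 2 : ℝ) * Y ^ (1 / 2 : ℝ)) := by rw [h4]; ring
      _ = Y ^ (34 : ℕ) := by rw [hhalf]; ring

/-- **Gallagher's theorem in the form of weights on the primes of short intervals, uniformly in the
centre**: `ε q χ` bounds all windows with centres in `[X ^ v, X ^ 2]`. -/
theorem gal_weights_band {c₁ : ℝ} (hc₁ : 0 < c₁) :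
    ∃ C : ℝ, 1 ≤ C ∧ ∃ c : ℝ, 0 < c ∧ ∃ A : ℝ, 1 ≤ A ∧ ∀ κ v : ℝ, 0 < κ → A * κ ≤ v → v ≤ 1 →
    ∃ X₀ : ℕ, ∀ X : ℕ, X₀ ≤ X → Good c₁ ⌊(X : ℝ) ^ (124 * κ)⌋₊ →
    8 ≤ X ∧ ∃ k : ℕ, (2 * Real.log X) ^ 2 ≤ k ∧ Real.sqrt k ≤ ((X : ℝ) ^ κ) ^ (34 : ℕ) ∧
    ∃ ε : (q : ℕ) → DirichletCharacter ℂ q → ℝ, (∀ q χ, 0 ≤ ε q χ) ∧
      ∑ q ∈ Icc 1 ⌊(X : ℝ) ^ (124 * κ)⌋₊, ∑ χ ∈ Prm q, ε q χ ≤ C * Real.exp (-(c * v / κ)) ∧
      ∀ Z : ℝ, (X : ℝ) ^ v ≤ Z → Z ≤ (X : ℝ) ^ (2 : ℕ) → ∃ (P : Finset ℕ) (u : ℕ → ℝ),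
        (∀ p ∈ P, p.Prime ∧ |Real.log ((p : ℝ) / Z)| ≤ ((X : ℝ) ^ κ) ^ (-33 : ℝ) ∧ 0 < u p ∧
          u p ≤ ((X : ℝ) ^ κ) ^ (34 : ℝ) / Z ∧ u p ≤ 2 * (Real.log p * wK k (Real.log Z) p)) ∧
        ∑ p ∈ P, u p = 1 ∧
        ∀ q ∈ Icc 1 ⌊(X : ℝ) ^ (124 * κ)⌋₊, ∀ χ ∈ Prm q,
          ‖∑ p ∈ P, ((u p : ℝ) : ℂ) * χ (p : ZMod q)‖ ≤ ε q χ := by
  obtain ⟨C, hC, c, hc, A, hA, hcore⟩ := x12_core hc₁
  have hC0 : 0 < C := by linarith
  have hl16 : 0 < Real.log (16 * C) := Real.log_pos (by linarith)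
  refine ⟨4 * C, by linarith, c / 124, by positivity,
    124 * A + 124 * Real.log (16 * C) / c, by
      have : 0 < 124 * Real.log (16 * C) / c := by positivity
      linarith, fun κ v hκ hAv hv1 => ?_⟩
  have hv1' : 124 * κ * A ≤ v := by
    have h1 : 0 ≤ 124 * Real.log (16 * C) / c * κ := by positivity
    nlinarith
  have hv2' : 124 * κ * Real.log (16 * C) ≤ c * v := by
    have h1 : 124 * Real.log (16 * C) / c * κ ≤ v := by
      have h2 : 0 ≤ 124 * A * κ := by positivity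
      nlinarith
    calc 124 * κ * Real.log (16 * C) = c * (124 * Real.log (16 * C) / c * κ) := by
          field_simp
      _ ≤ c * v := by gcongr
  have hv0 : 0 < v := lt_of_lt_of_le (by positivity) hv1'
  set e₀ : ℝ := C * Real.exp (-(c * v / (124 * κ))) with he₀
  have he0 : 0 < e₀ := by positivity
  have he16 : e₀ ≤ 1 / 16 := by
    have h1 : Real.log (16 * C) ≤ c * v / (124 * κ) := by
      rw [le_div_iff₀ (by positivity)]; linarith
    have h2 : Real.exp (-(c * v / (124 * κ))) ≤ (16 * C)⁻¹ := by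
      rw [← Real.exp_log (show (0 : ℝ) < 16 * C by positivity), ← Real.exp_neg]
      exact Real.exp_le_exp.2 (by linarith)
    calc e₀ ≤ C * (16 * C)⁻¹ := mul_le_mul_of_nonneg_left h2 hC0.le
      _ = 1 / 16 := by field_simp
  obtain ⟨X₀, hX₀⟩ := eventually_atTop.1 (x12_eventually (C := C) hκ hv0 he0)
  refine ⟨X₀, fun X hX hgood => ?_⟩
  obtain ⟨hX8, hvX, hY32, hlogY, htail⟩ := hX₀ X hX
  have hX0 : (0 : ℝ) < X := by linarith
  have hX1 : (1 : ℝ) ≤ X := by linarith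
  set Y : ℝ := (X : ℝ) ^ κ with hY
  have hY0 : 0 < Y := by linarith
  have hY1 : 1 ≤ Y := by linarith
  set lX : ℝ := Real.log X with hlX
  have hlX0 : 0 < lX := Real.log_pos (by linarith)
  have hlX2 : 2 ≤ lX := by nlinarith
  set D : ℕ := ⌊(X : ℝ) ^ (124 * κ)⌋₊ with hD
  have hY124 : (X : ℝ) ^ (124 * κ) = Y ^ (124 : ℕ) := by
    rw [hY, ← Real.rpow_natCast, ← Real.rpow_mul hX0.le]
    norm_num
    ring_nf
  have hYY : ∀ n : ℕ, 1 ≤ n → 32 ≤ Y ^ n := by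
    intro n hn
    calc (32 : ℝ) ≤ Y := hY32
      _ = Y ^ 1 := (pow_one Y).symm
      _ ≤ Y ^ n := pow_le_pow_right₀ hY1 hn
  have hD1 : (D : ℝ) ≤ Y ^ (124 : ℕ) := by
    rw [← hY124]
    exact Nat.floor_le (by positivity)
  have hD2 : Y ^ (124 : ℕ) / 2 ≤ D := by
    have h1 : (X : ℝ) ^ (124 * κ) < D + 1 := Nat.lt_floor_add_one _
    rw [hY124] at h1
    have := hYY 124 (by norm_num)
    linarith
  have hD4 : 4 ≤ D := by
    have := hYY 124 (by norm_num)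
    have h1 : (4 : ℝ) ≤ D := by linarith
    exact_mod_cast h1
  have hDR : (4 : ℝ) ≤ D := by exact_mod_cast hD4
  have hLD : Real.log D ≤ 124 * κ * lX := by
    have h1 : Real.log D ≤ Real.log ((X : ℝ) ^ (124 * κ)) := by
      apply Real.log_le_log (by linarith)
      rw [hY124]; exact hD1
    rw [Real.log_rpow hX0] at h1
    exact h1
  have hLD0 : 0 < Real.log D := Real.log_pos (by linarith)
  have hE1 : C * Real.exp (-(c * (v * lX) / Real.log D)) ≤ e₀ := by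
    rw [he₀]
    apply mul_le_mul_of_nonneg_left _ hC0.le
    apply Real.exp_le_exp.2
    have : c * v / (124 * κ) ≤ c * (v * lX) / Real.log D := by
      rw [div_le_div_iff₀ (by positivity) hLD0]
      calc c * v * Real.log D ≤ c * v * (124 * κ * lX) := by gcongr
        _ = _ := by ring
    linarith
  obtain ⟨ε, hε0, hεs, hεw⟩ := hcore D hD4 hgood (v * lX) hvX (by
      calc A * Real.log D ≤ A * (124 * κ * lX) := by gcongr
        _ = (124 * κ * A) * lX := by ring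
        _ ≤ v * lX := by gcongr) (hE1.trans he16)
  obtain ⟨k, hk⟩ : ∃ k : ℕ, k = ⌈(2 * lX) ^ 2 * Y ^ (67 : ℕ)⌉₊ := ⟨_, rfl⟩
  set T₀ : ℝ := C * Y ^ (34 : ℕ) * (Y ^ (4 / κ) * Real.exp (-(1 / 32) * Y)) with hT₀
  have hT0 : 0 < T₀ := by positivity
  have hDT : (D : ℝ) ^ 2 * T₀ ≤ e₀ := by
    refine le_trans ?_ htail
    have h1 : (D : ℝ) ^ 2 ≤ Y ^ (248 : ℕ) := by
      calc (D : ℝ) ^ 2 ≤ (Y ^ (124 : ℕ)) ^ 2 := pow_le_pow_left₀ (by positivity) hD1 2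
        _ = _ := by ring
    calc (D : ℝ) ^ 2 * T₀ ≤ Y ^ (248 : ℕ) * T₀ := by gcongr
      _ = C * ((Y ^ (282 : ℕ) * Y ^ (4 / κ)) * Real.exp (-(1 / 32) * Y)) := by
          rw [hT₀]; ring
      _ = _ := by
          rw [Real.rpow_add hY0, ← Real.rpow_natCast]
          norm_num
  have hT16 : T₀ ≤ 1 / 16 := by
    have h1 : (1 : ℝ) ≤ (D : ℝ) ^ 2 := by nlinarith
    nlinarith
  have hsk34 : Real.sqrt k ≤ Y ^ (34 : ℕ) := by
    obtain ⟨-, -, -, -, -, h6, -⟩ := x12_sizes (M := 2) (D := D) hY32 hlogY hlX0 hk hD2 le_rfl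
      (by linarith)
    have h4 : Y ^ (33 : ℝ) = Y ^ (33 : ℕ) := by
      rw [← Real.rpow_natCast]; norm_num
    have hhalf : Y ^ (1 / 2 : ℝ) * Y ^ (1 / 2 : ℝ) = Y := by
      rw [← Real.rpow_add hY0]; norm_num
    have h5 : 3 * lX ≤ Y ^ (1 / 2 : ℝ) := by
      refine le_trans ?_ hlogY
      have h7 : 1 ≤ Real.exp 3 := Real.one_le_exp (by norm_num)
      nlinarith
    calc Real.sqrt k ≤ 3 * lX * (Y ^ (33 : ℝ) * Y ^ (1 / 2 : ℝ)) := h6
      _ ≤ Y ^ (1 / 2 : ℝ) * (Y ^ (33 : ℝ) * Y ^ (1 / 2 : ℝ)) := by gcongr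
      _ = Y ^ (33 : ℕ) * (Y ^ (1 / 2 : ℝ) * Y ^ (1 / 2 : ℝ)) := by rw [h4]; ring
      _ = Y ^ (34 : ℕ) := by rw [hhalf]; ring
  refine ⟨by exact_mod_cast hX8, k, ?_, hsk34, fun q χ => 2 * (ε q χ + T₀), fun q χ => ?_, ?_,
    fun Z hZ1 hZ2 => ?_⟩
  · rw [hk]
    refine le_trans ?_ (Nat.le_ceil _)
    exact le_mul_of_one_le_right (sq_nonneg _) (one_le_pow₀ hY1)
  · have := hε0 q χ
    positivity
  · have h1 : c / 124 * v / κ = c * v / (124 * κ) := by field_simp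
    rw [h1]
    calc ∑ q ∈ Icc 1 D, ∑ χ ∈ Prm q, 2 * (ε q χ + T₀) =
        2 * ∑ q ∈ Icc 1 D, ∑ χ ∈ Prm q, ε q χ + ∑ q ∈ Icc 1 D, ∑ _χ ∈ Prm q, 2 * T₀ := by
          rw [Finset.mul_sum, ← Finset.sum_add_distrib]
          refine Finset.sum_congr rfl fun q _ => ?_
          rw [Finset.mul_sum, ← Finset.sum_add_distrib]
          exact Finset.sum_congr rfl fun χ _ => by ring
      _ ≤ 2 * e₀ + (D : ℝ) ^ 2 * (2 * T₀) := by
          have h8 := x7_card (D := D) (B := 2 * T₀) (by linarith)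
          have h9 := hεs.trans hE1
          linarith
      _ ≤ 4 * e₀ := by linarith
      _ = 4 * C * Real.exp (-(c * v / (124 * κ))) := by rw [he₀]; ring
  · -- the window at `Z`
    have hXv : (0 : ℝ) < (X : ℝ) ^ v := by positivity
    have hZ0 : 0 < Z := lt_of_lt_of_le hXv hZ1
    set M : ℝ := Real.log Z with hM
    have hM1 : v * lX ≤ M := by
      have h1 := Real.log_le_log hXv hZ1
      rwa [Real.log_rpow hX0] at h1
    have hM2 : M ≤ 2 * lX := by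
      have h1 := Real.log_le_log hZ0 hZ2
      rw [Real.log_pow] at h1
      push_cast at h1
      exact h1
    have hM3 : 2 ≤ M := hvX.trans hM1
    have hM0 : 0 < M := by linarith
    obtain ⟨s1, s2, s3, s4, s5, s6, s7⟩ := x12_sizes (D := D) hY32 hlogY hlX0 hk hD2 hM3 hM2
    have hk0 : (0 : ℝ) < k := by nlinarith
    have hΔ0 : 0 < Y ^ (-33 : ℝ) := by positivity
    have hΔ1 : Y ^ (-33 : ℝ) ≤ 1 := Real.rpow_le_one_of_one_le_of_nonpos hY1 (by norm_num)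
    obtain ⟨u, hu1, hu2, hu3⟩ := hεw k M (Y ^ (-33 : ℝ)) T₀ hM1 s1 s2 hΔ0 hΔ1 s3 hT16 (by
      rw [s5]
      have h3 : Real.exp (2 * M - (Y ^ (-33 : ℝ)) ^ 2 * k / (32 * M ^ 2)) ≤
          Y ^ (4 / κ) * Real.exp (-(1 / 32) * Y) := by
        have h6 : Y ^ (4 / κ) = Real.exp (4 * lX) := by
          rw [hY, ← Real.rpow_mul hX0.le, Real.rpow_def_of_pos hX0, ← hlX]
          congr 1
          field_simp
        rw [h6, ← Real.exp_add]
        exact Real.exp_le_exp.2 (by linarith)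
      rw [hT₀]
      gcongr)
    refine ⟨PW M (Y ^ (-33 : ℝ)), u, fun p hp => ?_, hu2, hu3⟩
    obtain ⟨hpp, hpM⟩ := mem_PW.1 hp
    obtain ⟨hup, hup2⟩ := hu1 p hp
    have hp0 : (0 : ℝ) < p := by exact_mod_cast hpp.pos
    refine ⟨hpp, ?_, hup, ?_, hup2⟩
    · rw [Real.log_div hp0.ne' hZ0.ne']
      exact hpM
    · have h1 := abs_le.1 hpM
      have h2 : Real.log p ≤ M + 1 := by linarith [h1.2]
      have h3 : (1 : ℝ) / p ≤ Real.exp 1 / Z := by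
        rw [div_le_div_iff₀ hp0 hZ0, one_mul]
        have h4 : Z ≤ Real.exp (1 + Real.log p) := by
          rw [← Real.log_le_iff_le_exp hZ0]
          linarith [h1.1]
        rwa [Real.exp_add, Real.exp_log hp0] at h4
      have h5 : 0 ≤ Real.log p := Real.log_natCast_nonneg p
      have h6 : Real.exp 3 = Real.exp 2 * Real.exp 1 := by
        rw [← Real.exp_add]; norm_num
      have h7 : Y ^ (34 : ℝ) = Y ^ (33 : ℝ) * (Y ^ (1 / 2 : ℝ) * Y ^ (1 / 2 : ℝ)) := by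
        rw [← Real.rpow_add hY0, ← Real.rpow_add hY0]; norm_num
      have h8 : wK k M p ≤ Real.exp 2 * (Real.sqrt k / M) * (1 / p) := by
        have h3 := wK_le hM3 s1 (n := p) hpp.pos
        rw [s5] at h3
        refine h3.trans ?_
        refine mul_le_of_le_one_right (by positivity) ?_
        apply Real.exp_le_one_iff.2
        have := abs_nonneg (Real.log p - M)
        linarith
      have h9 : (M + 1) / M ≤ 3 / 2 := by
        rw [div_le_div_iff₀ hM0 (by norm_num)]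
        linarith
      calc u p ≤ 2 * (Real.log p * wK k M p) := hup2
        _ ≤ 2 * ((M + 1) * (Real.exp 2 * (Real.sqrt k / M) * (Real.exp 1 / Z))) := by
            apply mul_le_mul_of_nonneg_left _ (by norm_num)
            refine mul_le_mul h2 (h8.trans ?_) (wK_nonneg hM0 p) (by linarith)
            exact mul_le_mul_of_nonneg_left h3 (by positivity)
        _ = 2 * Real.exp 3 * ((M + 1) / M) * Real.sqrt k / Z := by rw [h6]; ring
        _ ≤ 2 * Real.exp 3 * (3 / 2) * (3 * lX * (Y ^ (33 : ℝ) * Y ^ (1 / 2 : ℝ))) / Z := by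
            gcongr
        _ = (Y ^ (33 : ℝ) * Y ^ (1 / 2 : ℝ)) * (9 * Real.exp 3 * lX) / Z := by ring
        _ ≤ (Y ^ (33 : ℝ) * Y ^ (1 / 2 : ℝ)) * Y ^ (1 / 2 : ℝ) / Z := by
            gcongr
            refine le_trans ?_ hlogY
            have h10 := Real.exp_pos 3
            nlinarith
        _ = _ := by rw [h7]; ring

/-- the sum of the windows over a grid (in the logarithmic scale) of centres -/
theorem x12_grid {k J : ℕ} {M₀ δ : ℝ} (hM : 2 ≤ M₀) (hk : (2 * M₀) ^ 2 ≤ k) (hδ : 0 < δ)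
    (hδk : Real.sqrt k * δ ≤ 2 * M₀) (hJ : J * δ ≤ M₀) {n : ℕ} (hn : 1 ≤ n) :
    ∑ j ∈ Finset.range J, wK k (M₀ + j * δ) n ≤ 12 * Real.exp 2 / (δ * n) := by
  have hn0 : (0 : ℝ) < n := by exact_mod_cast hn
  have hk16 : (16 : ℝ) ≤ k := by nlinarith
  have hk0 : (0 : ℝ) < k := by linarith
  have hs2 : 4 ≤ Real.sqrt k := by
    apply Real.le_sqrt_of_sq_le; linarith
  have hs0 : 0 < Real.sqrt k := by linarith
  have hss : Real.sqrt k * Real.sqrt k = k := Real.mul_self_sqrt hk0.le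
  have hM₀0 : 0 < M₀ := by linarith
  set lam : ℝ := Real.sqrt k / (2 * M₀) with hlam
  have hlam0 : 0 < lam := by positivity
  have hterm : ∀ j ∈ Finset.range J, wK k (M₀ + j * δ) n ≤
      2 * lam * Real.exp 2 / n * Real.exp (-(lam * |Real.log n - (M₀ + j * δ)|)) := by
    intro j hj
    have hj0 : 0 ≤ (j : ℝ) * δ := by positivity
    have hjJ : (j : ℝ) * δ ≤ M₀ := by
      have h1 : (j : ℝ) ≤ J := by exact_mod_cast (Finset.mem_range.1 hj).le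
      have h2 : (j : ℝ) * δ ≤ J * δ := mul_le_mul_of_nonneg_right h1 hδ.le
      linarith
    set M : ℝ := M₀ + j * δ with hMd
    have hM1 : M₀ ≤ M := by linarith
    have hM2 : M ≤ 2 * M₀ := by linarith
    have hMpos : 0 < M := by linarith
    have hMk : M ^ 2 ≤ k := (pow_le_pow_left₀ hMpos.le hM2 2).trans hk
    have h1 : lam ≤ k / M / 2 := by
      rw [hlam, div_div, div_le_div_iff₀ (by positivity) (by positivity)]
      have h7 : M * 2 ≤ 2 * M₀ * Real.sqrt k := by nlinarith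
      calc Real.sqrt k * (M * 2) ≤ Real.sqrt k * (2 * M₀ * Real.sqrt k) :=
            mul_le_mul_of_nonneg_left h7 hs0.le
        _ = (Real.sqrt k * Real.sqrt k) * (2 * M₀) := by ring
        _ = k * (2 * M₀) := by rw [hss]
    have h2 := x6_tilt (by linarith) hMk hlam0.le h1 hn
    refine h2.trans ?_
    have h3 : k / M / Real.sqrt k ≤ 2 * lam := by
      have h4 : (k : ℝ) / M / Real.sqrt k = Real.sqrt k / M := by
        rw [div_div, div_eq_div_iff (by positivity) hMpos.ne']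
        nth_rewrite 1 [← hss]
        ring
      rw [h4, hlam]
      have h5 : 2 * (Real.sqrt k / (2 * M₀)) = Real.sqrt k / M₀ := by field_simp
      rw [h5]
      exact div_le_div_of_nonneg_left hs0.le hM₀0 hM1
    have h5 : 2 * lam ^ 2 * M ^ 2 / k ≤ 2 := by
      rw [div_le_iff₀ hk0, hlam, div_pow, Real.sq_sqrt hk0.le]
      have h6 : M ^ 2 ≤ (2 * M₀) ^ 2 := pow_le_pow_left₀ hMpos.le hM2 2
      calc 2 * ((k : ℝ) / (2 * M₀) ^ 2) * M ^ 2 ≤
          2 * ((k : ℝ) / (2 * M₀) ^ 2) * (2 * M₀) ^ 2 := by gcongr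
        _ = 2 * (k : ℝ) := by field_simp
    calc (k : ℝ) / M / Real.sqrt k * (1 / n) *
          Real.exp (-(lam * |Real.log n - M|) + 2 * lam ^ 2 * M ^ 2 / k) ≤
        2 * lam * (1 / n) * Real.exp (-(lam * |Real.log n - M|) + 2) := by gcongr
      _ = _ := by rw [Real.exp_add]; ring
  have hsep := x9_sep (J := J) (m := fun j => M₀ + j * δ) (δ := δ) (lam := lam)
    (y := Real.log n) hδ hlam0 (by
      intro i j _ _
      show δ * ((j : ℝ) - i) ≤ (M₀ + j * δ) - (M₀ + i * δ)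
      linarith)
  calc ∑ j ∈ Finset.range J, wK k (M₀ + j * δ) n ≤
      ∑ j ∈ Finset.range J, 2 * lam * Real.exp 2 / n *
        Real.exp (-(lam * |Real.log n - (M₀ + j * δ)|)) := Finset.sum_le_sum hterm
    _ = 2 * lam * Real.exp 2 / n * ∑ j ∈ Finset.range J,
        Real.exp (-(lam * |Real.log n - (M₀ + j * δ)|)) := by rw [Finset.mul_sum]
    _ ≤ 2 * lam * Real.exp 2 / n * (2 * (1 + 2 / (lam * δ))) := by
        apply mul_le_mul_of_nonneg_left hsep (by positivity)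
    _ = 4 * Real.exp 2 / n * (lam + 2 / δ) := by field_simp; norm_num
    _ ≤ 4 * Real.exp 2 / n * (1 / δ + 2 / δ) := by
        apply mul_le_mul_of_nonneg_left _ (by positivity)
        have h1 : lam ≤ 1 / δ := by
          rw [hlam, div_le_div_iff₀ (by positivity) hδ]
          linarith
        linarith
    _ = _ := by field_simp; norm_num

end Pool.Agent.GA
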