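import Pool.Agent.Lib_helper46.GA.X12

/-!
# GA part X, file 13: the weights on a band of primes

`gal_band`: one bound `ε q χ` for all the windows with centres in `[X ^ v, X ^ 2]`, (W1) for one
window with arbitrary centre, (W2) for a grid of (smooth, overlapping, exactly normalised) windows
in the band `[X ^ v, X ^ (2 v)]` with the bound for the sum of the windows.
-/

set_option autoImplicit false
set_option linter.unusedSectionVars false

namespace Pool.Agent.GA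

open Finset Complex Metric Filter
open scoped ArithmeticFunction.vonMangoldt Classical Topology

/-- **The weights on a band of primes.** -/
theorem gal_band {c₁ : ℝ} (hc₁ : 0 < c₁) :
    ∃ C : ℝ, 1 ≤ C ∧ ∃ c : ℝ, 0 < c ∧ ∃ A : ℝ, 1 ≤ A ∧ ∀ κ v : ℝ, 0 < κ → A * κ ≤ v → v ≤ 1 →
    ∃ X₀ : ℕ, ∀ X : ℕ, X₀ ≤ X → Good c₁ ⌊(X : ℝ) ^ (124 * κ)⌋₊ →
    ∃ ε : (q : ℕ) → DirichletCharacter ℂ q → ℝ, (∀ q χ, 0 ≤ ε q χ) ∧
      ∑ q ∈ Icc 1 ⌊(X : ℝ) ^ (124 * κ)⌋₊, ∑ χ ∈ Prm q, ε q χ ≤ C * Real.exp (-(c * v / κ)) ∧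
      (∀ Z : ℝ, (X : ℝ) ^ v ≤ Z → Z ≤ (X : ℝ) ^ (2 : ℕ) → ∃ (P : Finset ℕ) (u : ℕ → ℝ),
        (∀ p ∈ P, p.Prime ∧ |Real.log ((p : ℝ) / Z)| ≤ ((X : ℝ) ^ κ) ^ (-33 : ℝ) ∧ 0 < u p ∧
          u p ≤ ((X : ℝ) ^ κ) ^ (34 : ℝ) / Z) ∧
        ∑ p ∈ P, u p = 1 ∧
        ∀ q ∈ Icc 1 ⌊(X : ℝ) ^ (124 * κ)⌋₊, ∀ χ ∈ Prm q,
          ‖∑ p ∈ P, ((u p : ℝ) : ℂ) * χ (p : ZMod q)‖ ≤ ε q χ) ∧
      ∀ (δ : ℝ) (J : ℕ), 0 < δ → δ ≤ (X : ℝ) ^ (-(34 * κ)) → J * δ ≤ v * Real.log X →
        ∃ u : ℕ → ℕ → ℝ,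
          (∀ j p, 0 ≤ u j p) ∧
          (∀ j p, u j p ≠ 0 → j < J ∧ p.Prime ∧
            |Real.log p - (v * Real.log X + j * δ)| ≤ ((X : ℝ) ^ κ) ^ (-33 : ℝ) ∧
            u j p ≤ ((X : ℝ) ^ κ) ^ (34 : ℝ) / (X : ℝ) ^ v) ∧
          (∀ j, j < J → ∑ p ∈ range (⌊3 * (X : ℝ) ^ (2 * v)⌋₊ + 1), u j p = 1) ∧
          (∀ p, ∑ j ∈ range J, u j p ≤ C * Real.log p / (δ * p)) ∧
          ∀ j, j < J → ∀ q ∈ Icc 1 ⌊(X : ℝ) ^ (124 * κ)⌋₊, ∀ χ ∈ Prm q,
            ‖∑ p ∈ range (⌊3 * (X : ℝ) ^ (2 * v)⌋₊ + 1), ((u j p : ℝ) : ℂ) *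
              χ (p : ZMod q)‖ ≤ ε q χ := by
  obtain ⟨C, hC, c, hc, A, hA, hmain⟩ := gal_weights_band hc₁
  refine ⟨max C (24 * Real.exp 2), le_trans hC (le_max_left _ _), c, hc, A, hA,
    fun κ v hκ hAv hv1 => ?_⟩
  obtain ⟨X₀, hX₀⟩ := hmain κ v hκ hAv hv1
  have hv0 : 0 < v := lt_of_lt_of_le (by positivity) hAv
  refine ⟨max X₀ ⌈Real.exp (2 / v)⌉₊, fun X hX hgood => ?_⟩
  obtain ⟨hX8, k, hk1, hk2, ε, hε0, hεs, hεw⟩ := hX₀ X (le_trans (le_max_left _ _) hX) hgood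
  have hX8R : (8 : ℝ) ≤ X := by exact_mod_cast hX8
  have hX0 : (0 : ℝ) < X := by linarith
  have hX1 : (1 : ℝ) ≤ X := by linarith
  set lX : ℝ := Real.log X with hlX
  have hlX0 : 0 < lX := Real.log_pos (by linarith)
  have hvlX : 2 ≤ v * lX := by
    have h1 : Real.exp (2 / v) ≤ X := by
      refine (Nat.le_ceil _).trans ?_
      exact_mod_cast le_trans (le_max_right _ _) hX
    have h2 : 2 / v ≤ lX := (Real.le_log_iff_exp_le hX0).2 h1
    rw [div_le_iff₀ hv0] at h2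
    linarith
  refine ⟨ε, hε0, hεs.trans ?_, ?_, ?_⟩
  · exact mul_le_mul_of_nonneg_right (le_max_left _ _) (Real.exp_pos _).le
  · intro Z hZ1 hZ2
    obtain ⟨P, u, h1, h2, h3⟩ := hεw Z hZ1 hZ2
    exact ⟨P, u, fun p hp => ⟨(h1 p hp).1, (h1 p hp).2.1, (h1 p hp).2.2.1, (h1 p hp).2.2.2.1⟩,
      h2, h3⟩
  · intro δ J hδ hδ2 hJ
    have hexp : ∀ j : ℕ, j < J → (X : ℝ) ^ v ≤ Real.exp (v * lX + j * δ) ∧
        Real.exp (v * lX + j * δ) ≤ (X : ℝ) ^ (2 * v) := by
      intro j hj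
      have hj0 : 0 ≤ (j : ℝ) * δ := by positivity
      have hj1 : (j : ℝ) * δ ≤ v * lX := by
        have h1 : (j : ℝ) ≤ J := by exact_mod_cast hj.le
        exact (mul_le_mul_of_nonneg_right h1 hδ.le).trans hJ
      rw [Real.rpow_def_of_pos hX0, Real.rpow_def_of_pos hX0]
      constructor
      · apply Real.exp_le_exp.2; rw [← hlX]; linarith
      · apply Real.exp_le_exp.2; rw [← hlX]; linarith
    have hX2v : (X : ℝ) ^ (2 * v) ≤ (X : ℝ) ^ (2 : ℕ) := by
      rw [← Real.rpow_natCast]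
      apply Real.rpow_le_rpow_of_exponent_le hX1
      push_cast
      linarith
    have hch : ∀ j : ℕ, ∃ (P : Finset ℕ) (u : ℕ → ℝ), j < J →
        (∀ p ∈ P, p.Prime ∧ |Real.log ((p : ℝ) / Real.exp (v * lX + j * δ))| ≤
          ((X : ℝ) ^ κ) ^ (-33 : ℝ) ∧ 0 < u p ∧
          u p ≤ ((X : ℝ) ^ κ) ^ (34 : ℝ) / Real.exp (v * lX + j * δ) ∧
          u p ≤ 2 * (Real.log p * wK k (Real.log (Real.exp (v * lX + j * δ))) p)) ∧
        ∑ p ∈ P, u p = 1 ∧
        ∀ q ∈ Icc 1 ⌊(X : ℝ) ^ (124 * κ)⌋₊, ∀ χ ∈ Prm q,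
          ‖∑ p ∈ P, ((u p : ℝ) : ℂ) * χ (p : ZMod q)‖ ≤ ε q χ := by
      intro j
      by_cases hj : j < J
      · obtain ⟨P, u, h⟩ := hεw (Real.exp (v * lX + j * δ)) (hexp j hj).1
          ((hexp j hj).2.trans hX2v)
        exact ⟨P, u, fun _ => h⟩
      · exact ⟨∅, 0, fun h => absurd h hj⟩
    choose P u hPu using hch
    have hY0 : (0 : ℝ) < (X : ℝ) ^ κ := by positivity
    have hY1 : (1 : ℝ) ≤ (X : ℝ) ^ κ := Real.one_le_rpow hX1 hκ.le
    have hY33 : ((X : ℝ) ^ κ) ^ (-33 : ℝ) ≤ 1 :=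
      Real.rpow_le_one_of_one_le_of_nonpos hY1 (by norm_num)
    have hlogp : ∀ j p, j < J → p ∈ P j →
        |Real.log p - (v * lX + j * δ)| ≤ ((X : ℝ) ^ κ) ^ (-33 : ℝ) := by
      intro j p hj hp
      obtain ⟨h1, h2, -⟩ := (hPu j hj).1 p hp
      have hp0 : (0 : ℝ) < p := by exact_mod_cast h1.pos
      rwa [Real.log_div hp0.ne' (Real.exp_pos _).ne', Real.log_exp] at h2
    have hPB : ∀ j, j < J → P j ⊆ range (⌊3 * (X : ℝ) ^ (2 * v)⌋₊ + 1) := by
      intro j hj p hp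
      obtain ⟨h1, -⟩ := (hPu j hj).1 p hp
      have hp0 : (0 : ℝ) < p := by exact_mod_cast h1.pos
      have h2 := hlogp j p hj hp
      have h3 : (p : ℝ) ≤ 3 * (X : ℝ) ^ (2 * v) := by
        have h4 : Real.log p ≤ 1 + (v * lX + j * δ) := by
          have := (abs_le.1 h2).2
          linarith
        have h5 : (p : ℝ) ≤ Real.exp (1 + (v * lX + j * δ)) :=
          (Real.log_le_iff_le_exp hp0).1 h4
        rw [Real.exp_add] at h5
        have h6 : Real.exp 1 ≤ 3 := by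
          have := Real.exp_one_lt_d9
          linarith
        refine h5.trans (mul_le_mul h6 (hexp j hj).2 (Real.exp_pos _).le (by norm_num))
      rw [Finset.mem_range]
      exact Nat.lt_succ_of_le (Nat.le_floor h3)
    refine ⟨fun j p => if j < J ∧ p ∈ P j then u j p else 0, ?_, ?_, ?_, ?_, ?_⟩
    · intro j p
      show 0 ≤ (if j < J ∧ p ∈ P j then u j p else 0)
      split_ifs with h
      · exact ((hPu j h.1).1 p h.2).2.2.1.le
      · exact le_rfl
    · intro j p hne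
      have hne' : (if j < J ∧ p ∈ P j then u j p else 0) ≠ 0 := hne
      have h : j < J ∧ p ∈ P j := by
        by_contra h
        exact hne' (if_neg h)
      refine ⟨h.1, ((hPu j h.1).1 p h.2).1, hlogp j p h.1 h.2, ?_⟩
      show (if j < J ∧ p ∈ P j then u j p else 0) ≤ _
      rw [if_pos h]
      refine ((hPu j h.1).1 p h.2).2.2.2.1.trans ?_
      exact div_le_div_of_nonneg_left (by positivity) (by positivity) (hexp j h.1).1
    · intro j hj
      show ∑ p ∈ range (⌊3 * (X : ℝ) ^ (2 * v)⌋₊ + 1),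
        (if j < J ∧ p ∈ P j then u j p else 0) = 1
      have h1 : ∀ p ∈ range (⌊3 * (X : ℝ) ^ (2 * v)⌋₊ + 1),
          (if j < J ∧ p ∈ P j then u j p else 0) = if p ∈ P j then u j p else 0 := by
        intro p _
        simp [hj]
      rw [Finset.sum_congr rfl h1, Finset.sum_ite_mem,
        Finset.inter_eq_right.2 (hPB j hj)]
      exact (hPu j hj).2.1
    · intro p
      show ∑ j ∈ range J, (if j < J ∧ p ∈ P j then u j p else 0) ≤ _
      rcases Nat.eq_zero_or_pos p with hp0 | hp0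
      · subst hp0
        have h1 : ∀ j ∈ range J, (if j < J ∧ 0 ∈ P j then u j 0 else 0) = 0 := by
          intro j hj
          rw [if_neg]
          rintro ⟨h1, h2⟩
          exact absurd ((hPu j h1).1 0 h2).1 (by norm_num)
        rw [Finset.sum_congr rfl h1]
        simp
      · have hpR : (1 : ℝ) ≤ p := by exact_mod_cast hp0
        have hlp : 0 ≤ Real.log p := Real.log_nonneg hpR
        have h1 : ∀ j ∈ range J, (if j < J ∧ p ∈ P j then u j p else 0) ≤
            2 * Real.log p * wK k (v * lX + j * δ) p := by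
          intro j hj
          have hj' := Finset.mem_range.1 hj
          split_ifs with h
          · have h2 := ((hPu j h.1).1 p h.2).2.2.2.2
            rw [Real.log_exp] at h2
            linarith
          · have h3 : 0 ≤ wK k (v * lX + j * δ) p := wK_nonneg (by positivity) p
            positivity
        have hgrid := x12_grid (k := k) (J := J) (M₀ := v * lX) (δ := δ) hvlX (by
            refine le_trans ?_ hk1
            apply pow_le_pow_left₀ (by linarith)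
            have : v * lX ≤ 1 * lX := mul_le_mul_of_nonneg_right hv1 hlX0.le
            linarith) hδ (by
            have h4 : ((X : ℝ) ^ κ) ^ (34 : ℕ) * (X : ℝ) ^ (-(34 * κ)) = 1 := by
              rw [← Real.rpow_natCast, ← Real.rpow_mul hX0.le, ← Real.rpow_add hX0]
              have : κ * ((34 : ℕ) : ℝ) + -(34 * κ) = 0 := by push_cast; ring
              rw [this, Real.rpow_zero]
            have h5 : Real.sqrt k * δ ≤ 1 := by
              rw [← h4]
              exact mul_le_mul hk2 hδ2 hδ.le (by positivity)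
            linarith) hJ hp0
        calc ∑ j ∈ range J, (if j < J ∧ p ∈ P j then u j p else 0) ≤
            ∑ j ∈ range J, 2 * Real.log p * wK k (v * lX + j * δ) p := Finset.sum_le_sum h1
          _ = 2 * Real.log p * ∑ j ∈ range J, wK k (v * lX + j * δ) p := by
              rw [Finset.mul_sum]
          _ ≤ 2 * Real.log p * (12 * Real.exp 2 / (δ * p)) :=
              mul_le_mul_of_nonneg_left hgrid (by positivity)
          _ = 24 * Real.exp 2 * Real.log p / (δ * p) := by ring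
          _ ≤ max C (24 * Real.exp 2) * Real.log p / (δ * p) := by
              apply div_le_div_of_nonneg_right _ (by positivity)
              exact mul_le_mul_of_nonneg_right (le_max_right _ _) hlp
    · intro j hj q hq χ hχ
      show ‖∑ p ∈ range (⌊3 * (X : ℝ) ^ (2 * v)⌋₊ + 1),
        (((if j < J ∧ p ∈ P j then u j p else 0 : ℝ)) : ℂ) * χ (p : ZMod q)‖ ≤ ε q χ
      have h1 : ∀ p ∈ range (⌊3 * (X : ℝ) ^ (2 * v)⌋₊ + 1),
          (((if j < J ∧ p ∈ P j then u j p else 0 : ℝ)) : ℂ) * χ (p : ZMod q) =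
            if p ∈ P j then ((u j p : ℝ) : ℂ) * χ (p : ZMod q) else 0 := by
        intro p _
        by_cases h : p ∈ P j
        · simp [hj, h]
        · simp [h]
      rw [Finset.sum_congr rfl h1, Finset.sum_ite_mem, Finset.inter_eq_right.2 (hPB j hj)]
      exact (hPu j hj).2.2 q hq χ hχ

end Pool.Agent.GA
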