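import Pool.Agent.Lib_helper98.GAF.Final

/-!
# GA part X, file 9: the weights with the explicit pointwise bound, and for a grid of centres
-/

set_option autoImplicit false
set_option linter.unusedSectionVars false

namespace Pool.Agent.GA

open Finset Complex Metric Filter
open scoped ArithmeticFunction.vonMangoldt Classical Topology

/-- the weights, non-asymptotic form -/
theorem x9_core {c₁ : ℝ} (hc₁ : 0 < c₁) :
    ∃ C : ℝ, 1 ≤ C ∧ ∃ c : ℝ, 0 < c ∧ ∃ A : ℝ, 1 ≤ A ∧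
    ∀ D : ℕ, 4 ≤ D → Good c₁ D → ∀ (k : ℕ) (M Δ : ℝ), 2 ≤ M → A * Real.log D ≤ M →
    M ^ 2 ≤ k → 4 * k ≤ D ^ 2 * M → 0 < Δ → Δ ≤ 1 → 32 * M ^ 2 ≤ Δ * k →
    C * Real.exp (-(c * M / Real.log D)) ≤ 1 / 16 →
    (D : ℝ) ^ 2 * (C * (k / M / Real.sqrt k) *
      Real.exp (2 * M - Δ ^ 2 * k / (32 * M ^ 2))) ≤ 1 / 16 →
    ∃ u : ℕ → ℝ, (∀ p ∈ PW M Δ, 0 < u p ∧ u p ≤ 2 * (Real.log p * wK k M p)) ∧
      ∑ p ∈ PW M Δ, u p = 1 ∧
      ∑ q ∈ Icc 1 D, ∑ χ ∈ Prm q, ‖∑ p ∈ PW M Δ, ((u p : ℝ) : ℂ) * χ (p : ZMod q)‖ ≤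
        2 * (C * Real.exp (-(c * M / Real.log D)) + (D : ℝ) ^ 2 * (C * (k / M / Real.sqrt k) *
          Real.exp (2 * M - Δ ^ 2 * k / (32 * M ^ 2)))) := by
  obtain ⟨Ca, hCa, ca, hca, Aa, hAa, ha⟩ := gal_SKP c₁ hc₁
  obtain ⟨Cb, hCb, cb, hcb, Ab, hAb, hb⟩ := gal_zeta density_zeta
  obtain ⟨Ct, hCt, ht⟩ := x6_trunc
  refine ⟨max Ca (max Cb Ct), le_trans hCa (le_max_left _ _), min ca cb, lt_min hca hcb,
    max Aa Ab, le_trans hAa (le_max_left _ _),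
    fun D hD hgood k M Δ hM hAM hk hk4 hΔ hΔ1 hkΔ h1 h2 => ?_⟩
  set C := max Ca (max Cb Ct) with hC
  set c := min ca cb with hc
  have hDR : (4 : ℝ) ≤ D := by exact_mod_cast hD
  set L : ℝ := Real.log D with hL
  have hL0 : 0 < L := Real.log_pos (by linarith)
  have hk0 : (0 : ℝ) < k := by nlinarith
  have hk1 : 1 ≤ k := by
    have : (0 : ℝ) < k := hk0
    exact_mod_cast this
  have hCa' : Ca ≤ C := le_max_left _ _
  have hCb' : Cb ≤ C := le_trans (le_max_left _ _) (le_max_right _ _)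
  have hCt' : Ct ≤ C := le_trans (le_max_right _ _) (le_max_right _ _)
  have hC0 : 0 < C := by linarith
  have hAa' : Aa * L ≤ M :=
    (mul_le_mul_of_nonneg_right (le_max_left Aa Ab) hL0.le).trans hAM
  have hAb' : Ab * L ≤ M :=
    (mul_le_mul_of_nonneg_right (le_max_right Aa Ab) hL0.le).trans hAM
  have hexp : ∀ {c' : ℝ}, c ≤ c' → Real.exp (-(c' * M / L)) ≤ Real.exp (-(c * M / L)) := by
    intro c' hc'
    apply Real.exp_le_exp.2
    have : c * M / L ≤ c' * M / L := by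
      apply div_le_div_of_nonneg_right _ hL0.le
      exact mul_le_mul_of_nonneg_right hc' (by linarith)
    linarith
  have ha1 := ha D hD hgood k M hM hAa' hk hk4 (fun _ _ => 0) (by
    intro q χ; rw [abs_zero]; linarith)
  have ha2 : ∑ q ∈ Icc 1 D, ∑ χ ∈ Prm q, ‖SKP χ k M 0‖ ≤ C * Real.exp (-(c * M / L)) := by
    refine ha1.trans ?_
    exact mul_le_mul hCa' (hexp (min_le_left _ _)) (Real.exp_pos _).le hC0.le
  have hb1 := hb D hD k M hM hAb' hk hk4 0 (by rw [abs_zero]; linarith)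
  have hkM : (((k / M : ℝ) : ℂ) / (((k / M : ℝ) : ℂ) + ((0 : ℝ) : ℂ) * I)) ^ (k + 1) = 1 := by
    have h3 : ((k / M : ℝ) : ℂ) ≠ 0 := by
      rw [Ne, Complex.ofReal_eq_zero]
      positivity
    rw [Complex.ofReal_zero, zero_mul, add_zero, div_self h3, one_pow]
  rw [hkM] at hb1
  have hb2 : ‖SKP (1 : DirichletCharacter ℂ 1) k M 0 - 1‖ ≤ 1 / 16 := by
    refine hb1.trans (le_trans ?_ h1)
    exact mul_le_mul hCb' (hexp (min_le_right _ _)) (Real.exp_pos _).le hC0.le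
  set B : ℝ := C * (k / M / Real.sqrt k) * Real.exp (2 * M - Δ ^ 2 * k / (32 * M ^ 2)) with hB
  have hB0 : 0 ≤ B := by positivity
  have hD2 : (1 : ℝ) ≤ (D : ℝ) ^ 2 := by nlinarith
  have hBle : B ≤ 1 / 16 := by nlinarith
  have ht' : ∀ (q : ℕ) [NeZero q] (χ : DirichletCharacter ℂ q),
      ‖SKP χ k M 0 - ∑ p ∈ PW M Δ, ((Real.log p * wK k M p : ℝ) : ℂ) * χ (p : ZMod q)‖ ≤ B := by
    intro q _ χ
    refine (ht q χ k M Δ hM hΔ hΔ1 hkΔ).trans ?_
    rw [hB]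
    gcongr
  set W : ℝ := ∑ p ∈ PW M Δ, Real.log p * wK k M p with hW
  have hW1 : ‖(W : ℂ) - 1‖ ≤ 1 / 8 := by
    have h3 := ht' 1 (1 : DirichletCharacter ℂ 1)
    have h4 : ∑ p ∈ PW M Δ, ((Real.log p * wK k M p : ℝ) : ℂ) *
        (1 : DirichletCharacter ℂ 1) (p : ZMod 1) = (W : ℂ) := by
      rw [hW, Complex.ofReal_sum]
      refine Finset.sum_congr rfl fun p _ => ?_
      have : (1 : DirichletCharacter ℂ 1) (p : ZMod 1) = 1 :=
        MulChar.one_apply (isUnit_of_subsingleton _)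
      rw [this, mul_one]
    rw [h4] at h3
    have h5 : (W : ℂ) - 1 = -(SKP (1 : DirichletCharacter ℂ 1) k M 0 - W) +
        (SKP (1 : DirichletCharacter ℂ 1) k M 0 - 1) := by ring
    rw [h5]
    refine (norm_add_le _ _).trans ?_
    rw [norm_neg]
    linarith
  have hW2 : 1 / 2 ≤ W := by
    have h3 : ‖((W - 1 : ℝ) : ℂ)‖ ≤ 1 / 8 := by push_cast; exact hW1
    rw [Complex.norm_real, Real.norm_eq_abs] at h3
    have := (abs_le.1 h3).1
    linarith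
  have hW0 : 0 < W := by linarith
  have hWinv : W⁻¹ ≤ 2 := by
    rw [inv_le_comm₀ hW0 (by norm_num)]
    linarith
  refine ⟨fun p => Real.log p * wK k M p / W, fun p hp => ?_, ?_, ?_⟩
  · have hpp := (mem_PW.1 hp).1
    have hlp : 0 < Real.log p := Real.log_pos (by exact_mod_cast hpp.one_lt)
    refine ⟨div_pos (mul_pos hlp (wK_pos (by linarith) hk1 hpp.two_le)) hW0, ?_⟩
    have h5 : 0 ≤ wK k M p := wK_nonneg (by linarith) p
    calc Real.log p * wK k M p / W = W⁻¹ * (Real.log p * wK k M p) := by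
          rw [div_eq_inv_mul]
      _ ≤ 2 * (Real.log p * wK k M p) := by gcongr
  · rw [← Finset.sum_div, ← hW, div_self hW0.ne']
  · have h3 : ∀ q ∈ Icc 1 D, ∀ χ ∈ Prm q,
        ‖∑ p ∈ PW M Δ, ((Real.log p * wK k M p / W : ℝ) : ℂ) * χ (p : ZMod q)‖ ≤
          2 * (‖SKP χ k M 0‖ + B) := by
      intro q hq χ _
      have : NeZero q := ⟨by
        have := (Finset.mem_Icc.1 hq).1
        omega⟩
      have h4 : ∑ p ∈ PW M Δ, ((Real.log p * wK k M p / W : ℝ) : ℂ) * χ (p : ZMod q) =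
          ((W⁻¹ : ℝ) : ℂ) * ∑ p ∈ PW M Δ, ((Real.log p * wK k M p : ℝ) : ℂ) *
            χ (p : ZMod q) := by
        rw [Finset.mul_sum]
        refine Finset.sum_congr rfl fun p _ => ?_
        rw [div_eq_inv_mul]
        push_cast
        ring
      rw [h4, norm_mul, Complex.norm_real, Real.norm_of_nonneg (by positivity)]
      have h5 := ht' q χ
      have h6 : ‖∑ p ∈ PW M Δ, ((Real.log p * wK k M p : ℝ) : ℂ) * χ (p : ZMod q)‖ ≤
          ‖SKP χ k M 0‖ + B := by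
        have h7 := norm_sub_norm_le (∑ p ∈ PW M Δ, ((Real.log p * wK k M p : ℝ) : ℂ) *
          χ (p : ZMod q)) (SKP χ k M 0)
        rw [norm_sub_rev] at h7
        linarith
      exact mul_le_mul hWinv h6 (norm_nonneg _) (by norm_num)
    calc ∑ q ∈ Icc 1 D, ∑ χ ∈ Prm q,
          ‖∑ p ∈ PW M Δ, ((Real.log p * wK k M p / W : ℝ) : ℂ) * χ (p : ZMod q)‖ ≤
        ∑ q ∈ Icc 1 D, ∑ χ ∈ Prm q, 2 * (‖SKP χ k M 0‖ + B) :=
          Finset.sum_le_sum fun q hq => Finset.sum_le_sum fun χ hχ => h3 q hq χ hχ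
      _ = 2 * ∑ q ∈ Icc 1 D, ∑ χ ∈ Prm q, ‖SKP χ k M 0‖ +
          ∑ q ∈ Icc 1 D, ∑ _χ ∈ Prm q, 2 * B := by
          rw [Finset.mul_sum, ← Finset.sum_add_distrib]
          refine Finset.sum_congr rfl fun q _ => ?_
          rw [Finset.mul_sum, ← Finset.sum_add_distrib]
          exact Finset.sum_congr rfl fun χ _ => by ring
      _ ≤ 2 * (C * Real.exp (-(c * M / L))) + (D : ℝ) ^ 2 * (2 * B) := by
          have h8 := x7_card (D := D) (B := 2 * B) (by linarith)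
          linarith
      _ = 2 * (C * Real.exp (-(c * M / L)) + (D : ℝ) ^ 2 * B) := by ring

/-- **Gallagher's theorem in the form of weights on the primes of a short interval**, with the
explicit pointwise bound; the parameter `k` depends only on `X`. -/
theorem gal_weights_wK {c₁ : ℝ} (hc₁ : 0 < c₁) :
    ∃ C : ℝ, 1 ≤ C ∧ ∃ c : ℝ, 0 < c ∧ ∃ κ₀ : ℝ, 0 < κ₀ ∧ ∀ κ : ℝ, 0 < κ → κ ≤ κ₀ →
    ∃ X₀ : ℕ, ∀ X : ℕ, X₀ ≤ X → Good c₁ ⌊(X : ℝ) ^ (124 * κ)⌋₊ →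
    8 ≤ X ∧ ∃ k : ℕ, Real.log (2 * X) ^ 2 ≤ k ∧ Real.sqrt k / Real.log (2 * X) ≤ ((X : ℝ) ^ κ) ^ (34 : ℕ) ∧
    ∀ X' : ℝ, (X : ℝ) ≤ X' → X' ≤ 2 * X → ∃ (P : Finset ℕ) (u : ℕ → ℝ),
      (∀ p ∈ P, p.Prime ∧ |Real.log ((p : ℝ) / X')| ≤ ((X : ℝ) ^ κ) ^ (-33 : ℝ) ∧ 0 < u p ∧
        u p ≤ ((X : ℝ) ^ κ) ^ (34 : ℝ) / X ∧ u p ≤ 2 * (Real.log p * wK k (Real.log X') p)) ∧
      ∑ p ∈ P, u p = 1 ∧
      ∑ q ∈ Icc 1 ⌊(X : ℝ) ^ (124 * κ)⌋₊, ∑ χ ∈ Prm q,
        ‖∑ p ∈ P, ((u p : ℝ) : ℂ) * χ (p : ZMod q)‖ ≤ C * Real.exp (-(c / κ)) := by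
  obtain ⟨C, hC, c, hc, A, hA, hcore⟩ := x9_core hc₁
  have hC0 : 0 < C := by linarith
  have hl16 : 0 < Real.log (16 * C) := Real.log_pos (by linarith)
  refine ⟨4 * C, by linarith, c / 124, by positivity,
    min (1 / (124 * A)) (c / (124 * Real.log (16 * C))), by positivity, fun κ hκ hκ₀ => ?_⟩
  have hκ1 : 124 * κ * A ≤ 1 := by
    have h1 := hκ₀.trans (min_le_left _ _)
    rw [le_div_iff₀ (by positivity)] at h1
    linarith
  have hκ2 : 124 * κ * Real.log (16 * C) ≤ c := by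
    have h1 := hκ₀.trans (min_le_right _ _)
    rw [le_div_iff₀ (by positivity)] at h1
    linarith
  set ε : ℝ := C * Real.exp (-(c / (124 * κ))) with hε
  have hε0 : 0 < ε := by positivity
  have hε16 : ε ≤ 1 / 16 := by
    have h1 : Real.log (16 * C) ≤ c / (124 * κ) := by
      rw [le_div_iff₀ (by positivity)]; linarith
    have h2 : Real.exp (-(c / (124 * κ))) ≤ (16 * C)⁻¹ := by
      rw [← Real.exp_log (show (0 : ℝ) < 16 * C by positivity), ← Real.exp_neg]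
      exact Real.exp_le_exp.2 (by linarith)
    calc ε ≤ C * (16 * C)⁻¹ := mul_le_mul_of_nonneg_left h2 hC0.le
      _ = 1 / 16 := by field_simp
  obtain ⟨X₀, hX₀⟩ := eventually_atTop.1 (x8_eventually (C := C) hκ hε0)
  refine ⟨X₀, fun X hX hgood => ?_⟩
  obtain ⟨hX8, hY32, hlogY, htail⟩ := hX₀ X hX
  have hX0 : (0 : ℝ) < X := by linarith
  set Y : ℝ := (X : ℝ) ^ κ with hY
  have hY0 : 0 < Y := by linarith
  have hY1 : 1 ≤ Y := by linarith
  set M₁ : ℝ := Real.log (2 * X) with hM₁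
  set k : ℕ := ⌈M₁ ^ 2 * Y ^ (67 : ℕ)⌉₊ with hk
  have hl2 : 0 < Real.log 2 := Real.log_pos (by norm_num)
  have hl8 : 3 * Real.log 2 ≤ Real.log X := by
    have h1 : Real.log 8 ≤ Real.log X := Real.log_le_log (by norm_num) hX8
    have h2 : Real.log 8 = 3 * Real.log 2 := by
      rw [show (8 : ℝ) = 2 ^ (3 : ℕ) by norm_num, Real.log_pow]; norm_num
    linarith
  have hM₁X : M₁ = Real.log 2 + Real.log X := by
    rw [hM₁, Real.log_mul (by norm_num) hX0.ne']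
  have hM₁0 : 0 < M₁ := by linarith
  suffices key : ∀ X' : ℝ, (X : ℝ) ≤ X' → X' ≤ 2 * X →
      Real.sqrt k / Real.log X' ≤ Y ^ (34 : ℕ) ∧ ∃ (P : Finset ℕ) (u : ℕ → ℝ),
      (∀ p ∈ P, p.Prime ∧ |Real.log ((p : ℝ) / X')| ≤ Y ^ (-33 : ℝ) ∧ 0 < u p ∧
        u p ≤ Y ^ (34 : ℝ) / X ∧ u p ≤ 2 * (Real.log p * wK k (Real.log X') p)) ∧
      ∑ p ∈ P, u p = 1 ∧
      ∑ q ∈ Icc 1 ⌊(X : ℝ) ^ (124 * κ)⌋₊, ∑ χ ∈ Prm q,
        ‖∑ p ∈ P, ((u p : ℝ) : ℂ) * χ (p : ZMod q)‖ ≤ 4 * C * Real.exp (-(c / 124 / κ)) by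
    refine ⟨by exact_mod_cast hX8, k, ?_, (key (2 * X) (by linarith) le_rfl).1,
      fun X' h1 h2 => (key X' h1 h2).2⟩
    refine le_trans ?_ (Nat.le_ceil (M₁ ^ 2 * Y ^ (67 : ℕ)))
    exact le_mul_of_one_le_right (sq_nonneg _) (one_le_pow₀ hY1)
  intro X' hX1 hX2
  have hX'0 : 0 < X' := by linarith
  set M : ℝ := Real.log X' with hM
  have hMX : Real.log X ≤ M := Real.log_le_log hX0 hX1
  have hM2X : M ≤ Real.log (2 * X) := Real.log_le_log hX'0 hX2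
  have hM2 : 2 ≤ M := by
    have h1 : Real.exp 2 ≤ 8 := by
      have := Real.exp_one_lt_d9
      have h2 : Real.exp 2 = Real.exp 1 ^ 2 := by
        rw [← Real.exp_nat_mul]; norm_num
      rw [h2]
      nlinarith [Real.exp_pos 1]
    rw [hM, Real.le_log_iff_exp_le hX'0]
    linarith
  have hM0 : 0 < M := by linarith
  set D : ℕ := ⌊(X : ℝ) ^ (124 * κ)⌋₊ with hD
  have hY124 : (X : ℝ) ^ (124 * κ) = Y ^ (124 : ℕ) := by
    rw [hY, ← Real.rpow_natCast, ← Real.rpow_mul hX0.le]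
    norm_num
    ring_nf
  have hYY : ∀ n : ℕ, 1 ≤ n → 32 ≤ Y ^ n := by
    intro n hn
    calc (32 : ℝ) ≤ Y := hY32
      _ = Y ^ 1 := (pow_one Y).symm
      _ ≤ Y ^ n := pow_le_pow_right₀ hY1 hn
  have hD1 : (D : ℝ) ≤ Y ^ (124 : ℕ) := by
    rw [← hY124]
    exact Nat.floor_le (by positivity)
  have hD2 : Y ^ (124 : ℕ) / 2 ≤ D := by
    have h1 : (X : ℝ) ^ (124 * κ) < D + 1 := Nat.lt_floor_add_one _
    rw [hY124] at h1
    have := hYY 124 (by norm_num)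
    linarith
  have hD4 : 4 ≤ D := by
    have := hYY 124 (by norm_num)
    have h1 : (4 : ℝ) ≤ D := by linarith
    exact_mod_cast h1
  have hDR : (4 : ℝ) ≤ D := by exact_mod_cast hD4
  have hLD : Real.log D ≤ 124 * κ * M := by
    have h1 : Real.log D ≤ Real.log ((X : ℝ) ^ (124 * κ)) := by
      apply Real.log_le_log (by linarith)
      rw [hY124]; exact hD1
    rw [Real.log_rpow hX0] at h1
    exact h1.trans (mul_le_mul_of_nonneg_left hMX (by positivity))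
  have hLD0 : 0 < Real.log D := Real.log_pos (by linarith)
  -- the parameter k
  have hMY : 4 ≤ M ^ 2 * Y ^ (67 : ℕ) := by
    have := hYY 67 (by norm_num)
    nlinarith
  have hMM : M ^ 2 ≤ M₁ ^ 2 := pow_le_pow_left₀ hM0.le hM2X 2
  have hMM2 : M₁ ^ 2 ≤ 2 * M ^ 2 := by
    have h1 : 3 * M₁ ≤ 4 * M := by linarith
    nlinarith
  have hk1 : M ^ 2 * Y ^ (67 : ℕ) ≤ k := by
    refine le_trans ?_ (Nat.le_ceil (M₁ ^ 2 * Y ^ (67 : ℕ)))
    exact mul_le_mul_of_nonneg_right hMM (by positivity)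
  have hk2 : (k : ℝ) ≤ 4 * (M ^ 2 * Y ^ (67 : ℕ)) := by
    have h1 : (k : ℝ) < M₁ ^ 2 * Y ^ (67 : ℕ) + 1 := Nat.ceil_lt_add_one (by positivity)
    have h2 : M₁ ^ 2 * Y ^ (67 : ℕ) ≤ 2 * M ^ 2 * Y ^ (67 : ℕ) :=
      mul_le_mul_of_nonneg_right hMM2 (by positivity)
    linarith
  have hk0 : (0 : ℝ) < k := by linarith
  have hMk : M ^ 2 ≤ k := by
    refine le_trans ?_ hk1
    have := hYY 67 (by norm_num)
    nlinarith [sq_nonneg M]
  have hYhalf : Y ^ (1 / 2 : ℝ) ≤ Y := by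
    calc Y ^ (1 / 2 : ℝ) ≤ Y ^ (1 : ℝ) := Real.rpow_le_rpow_of_exponent_le hY1 (by norm_num)
      _ = Y := Real.rpow_one Y
  have he3 : 8 ≤ Real.exp 3 := by
    have h1 := Real.add_one_le_exp (1 : ℝ)
    have h2 : Real.exp 3 = Real.exp 1 ^ 3 := by
      rw [← Real.exp_nat_mul]; norm_num
    rw [h2]
    have h3 : (2 : ℝ) ≤ Real.exp 1 := by linarith
    calc (8 : ℝ) = 2 ^ 3 := by norm_num
      _ ≤ Real.exp 1 ^ 3 := pow_le_pow_left₀ (by norm_num) h3 3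
  have hMle : 32 * M ≤ Y := by
    have h1 : 4 * Real.exp 3 * (M + 1) ≤ Y := by
      refine le_trans ?_ (hlogY.trans hYhalf)
      gcongr
    nlinarith
  have hk4 : 4 * (k : ℝ) ≤ D ^ 2 * M := by
    have h1 : Y ^ (248 : ℕ) / 4 ≤ (D : ℝ) ^ 2 := by
      have h2 : (Y ^ (124 : ℕ) / 2) ^ 2 ≤ (D : ℝ) ^ 2 := pow_le_pow_left₀ (by positivity) hD2 2
      calc Y ^ (248 : ℕ) / 4 = (Y ^ (124 : ℕ) / 2) ^ 2 := by ring
        _ ≤ _ := h2
    have h3 : 64 * M * Y ^ (67 : ℕ) ≤ Y ^ (248 : ℕ) := by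
      have h4 : Y ^ (248 : ℕ) = Y * Y * Y ^ (67 : ℕ) * Y ^ (179 : ℕ) := by ring
      have h5 : 1 ≤ Y ^ (179 : ℕ) := one_le_pow₀ hY1
      have h6 : 64 * M ≤ Y * Y := by nlinarith
      rw [h4]
      calc 64 * M * Y ^ (67 : ℕ) ≤ Y * Y * Y ^ (67 : ℕ) := by gcongr
        _ ≤ Y * Y * Y ^ (67 : ℕ) * Y ^ (179 : ℕ) := le_mul_of_one_le_right (by positivity) h5
    calc 4 * (k : ℝ) ≤ 16 * (M ^ 2 * Y ^ (67 : ℕ)) := by linarith
      _ = (64 * M * Y ^ (67 : ℕ)) / 4 * M := by ring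
      _ ≤ (Y ^ (248 : ℕ)) / 4 * M := by gcongr
      _ ≤ D ^ 2 * M := by gcongr
  -- the width
  set Δ : ℝ := Y ^ (-33 : ℝ) with hΔ
  have hΔ' : Δ = (Y ^ (33 : ℕ))⁻¹ := by
    rw [hΔ, Real.rpow_neg hY0.le, ← Real.rpow_natCast]
    norm_num
  have hΔ0 : 0 < Δ := by rw [hΔ']; positivity
  have hΔ1 : Δ ≤ 1 := by
    rw [hΔ']
    exact inv_le_one_of_one_le₀ (one_le_pow₀ hY1)
  have hΔk : 32 * M ^ 2 ≤ Δ * k := by
    calc 32 * M ^ 2 ≤ Y ^ (34 : ℕ) * M ^ 2 := by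
          have := hYY 34 (by norm_num)
          gcongr
      _ = Δ * (M ^ 2 * Y ^ (67 : ℕ)) := by
          rw [hΔ']; field_simp
      _ ≤ Δ * k := by gcongr
  have hs : Real.sqrt k = Real.sqrt k := rfl
  have hσs : (k : ℝ) / M / Real.sqrt k = Real.sqrt k / M := by
    have h1 : 0 < Real.sqrt k := Real.sqrt_pos.2 hk0
    rw [div_div, div_eq_div_iff (by positivity) hM0.ne']
    nth_rewrite 1 [← Real.mul_self_sqrt hk0.le]
    ring
  have hσs2 : Real.sqrt k / M ≤ 2 * (Y ^ (33 : ℝ) * Y ^ (1 / 2 : ℝ)) := by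
    rw [div_le_iff₀ hM0]
    apply Real.sqrt_le_iff.2
    refine ⟨by positivity, hk2.trans (le_of_eq ?_)⟩
    have h1 : Y ^ (67 : ℕ) = (Y ^ (33 : ℝ) * Y ^ (1 / 2 : ℝ)) ^ 2 := by
      rw [← Real.rpow_add hY0, ← Real.rpow_natCast, ← Real.rpow_natCast, ← Real.rpow_mul hY0.le]
      norm_num
    rw [h1]; ring
  have hσs3 : Real.sqrt k / M ≤ Y ^ (34 : ℕ) := by
    refine hσs2.trans ?_
    have h1 : 2 * Y ^ (1 / 2 : ℝ) ≤ Y := by
      have h2 : Y = Y ^ (1 / 2 : ℝ) * Y ^ (1 / 2 : ℝ) := by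
        rw [← Real.rpow_add hY0]; norm_num
      have h3 : 2 ≤ Y ^ (1 / 2 : ℝ) := by
        refine le_trans ?_ hlogY
        have : 0 ≤ Real.log (2 * X) := Real.log_nonneg (by linarith)
        nlinarith
      nlinarith
    have h4 : Y ^ (33 : ℝ) = Y ^ (33 : ℕ) := by
      rw [← Real.rpow_natCast]; norm_num
    rw [h4]
    calc 2 * (Y ^ (33 : ℕ) * Y ^ (1 / 2 : ℝ)) = Y ^ (33 : ℕ) * (2 * Y ^ (1 / 2 : ℝ)) := by ring
      _ ≤ Y ^ (33 : ℕ) * Y := by gcongr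
      _ = Y ^ (34 : ℕ) := by ring
  -- the two errors
  have hE1 : C * Real.exp (-(c * M / Real.log D)) ≤ ε := by
    rw [hε]
    apply mul_le_mul_of_nonneg_left _ hC0.le
    apply Real.exp_le_exp.2
    have : c / (124 * κ) ≤ c * M / Real.log D := by
      rw [div_le_div_iff₀ (by positivity) hLD0]
      calc c * Real.log D ≤ c * (124 * κ * M) := by gcongr
        _ = _ := by ring
    linarith
  have hE2 : (D : ℝ) ^ 2 * (C * (k / M / Real.sqrt k) *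
      Real.exp (2 * M - Δ ^ 2 * k / (32 * M ^ 2))) ≤ ε := by
    refine le_trans ?_ htail
    have h1 : (D : ℝ) ^ 2 ≤ Y ^ (248 : ℕ) := by
      calc (D : ℝ) ^ 2 ≤ (Y ^ (124 : ℕ)) ^ 2 := pow_le_pow_left₀ (by positivity) hD1 2
        _ = _ := by ring
    have h2 : Y / 32 ≤ Δ ^ 2 * k / (32 * M ^ 2) := by
      rw [div_le_div_iff₀ (by norm_num) (by positivity)]
      calc Y * (32 * M ^ 2) = Δ ^ 2 * (M ^ 2 * Y ^ (67 : ℕ)) * 32 := by
            rw [hΔ']; field_simp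
        _ ≤ Δ ^ 2 * k * 32 := by gcongr
    have h3 : Real.exp (2 * M - Δ ^ 2 * k / (32 * M ^ 2)) ≤
        4 * Y ^ (2 / κ) * Real.exp (-(1 / 32) * Y) := by
      have h4 : Real.exp (2 * M) ≤ 4 * Y ^ (2 / κ) := by
        have h5 : Real.exp (2 * M) = X' ^ 2 := by
          rw [two_mul, Real.exp_add, hM, Real.exp_log hX'0]; ring
        have h6 : Y ^ (2 / κ) = (X : ℝ) ^ 2 := by
          rw [hY, ← Real.rpow_mul hX0.le, ← Real.rpow_natCast]
          congr 1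
          field_simp
          norm_num
        rw [h5, h6]
        nlinarith
      calc Real.exp (2 * M - Δ ^ 2 * k / (32 * M ^ 2)) ≤ Real.exp (2 * M + -(1 / 32) * Y) :=
            Real.exp_le_exp.2 (by linarith)
        _ = Real.exp (2 * M) * Real.exp (-(1 / 32) * Y) := Real.exp_add _ _
        _ ≤ _ := mul_le_mul_of_nonneg_right h4 (Real.exp_pos _).le
    rw [hσs]
    calc (D : ℝ) ^ 2 * (C * (Real.sqrt k / M) *
          Real.exp (2 * M - Δ ^ 2 * k / (32 * M ^ 2))) ≤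
        Y ^ (248 : ℕ) * (C * Y ^ (34 : ℕ) * (4 * Y ^ (2 / κ) * Real.exp (-(1 / 32) * Y))) := by
          gcongr
      _ = 4 * C * ((Y ^ (282 : ℕ) * Y ^ (2 / κ)) * Real.exp (-(1 / 32) * Y)) := by ring
      _ = _ := by
          rw [Real.rpow_add hY0, ← Real.rpow_natCast]
          norm_num
  obtain ⟨u, hu1, hu2, hu3⟩ := hcore D hD4 hgood k M Δ hM2 (by
      calc A * Real.log D ≤ A * (124 * κ * M) := by gcongr
        _ = (124 * κ * A) * M := by ring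
        _ ≤ 1 * M := by gcongr
        _ = M := one_mul M) hMk hk4 hΔ0 hΔ1 hΔk (hE1.trans hε16) (hE2.trans hε16)
  refine ⟨hσs3, PW M Δ, u, fun p hp => ?_, hu2, ?_⟩
  · obtain ⟨hpp, hpM⟩ := mem_PW.1 hp
    obtain ⟨hup, hup2⟩ := hu1 p hp
    have hp0 : (0 : ℝ) < p := by exact_mod_cast hpp.pos
    refine ⟨hpp, ?_, hup, ?_, hup2⟩
    · rw [Real.log_div hp0.ne' hX'0.ne']
      exact hpM
    · have h0 : 2 * (Real.log p * wK k M p) ≤
          2 * Real.log p * (Real.exp 2 * (Real.sqrt k / M) * (1 / p)) := by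
        have h3 := wK_le hM2 hMk (n := p) hpp.pos
        rw [hσs] at h3
        have h4 : wK k M p ≤ Real.exp 2 * (Real.sqrt k / M) * (1 / p) := by
          refine h3.trans ?_
          refine mul_le_of_le_one_right (by positivity) ?_
          apply Real.exp_le_one_iff.2
          have := abs_nonneg (Real.log p - M)
          linarith
        have h5 : 0 ≤ Real.log p := Real.log_natCast_nonneg p
        calc 2 * (Real.log p * wK k M p) ≤
            2 * (Real.log p * (Real.exp 2 * (Real.sqrt k / M) * (1 / p))) := by gcongr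
          _ = _ := by ring
      refine (hup2.trans h0).trans ?_
      have h1 := abs_le.1 hpM
      have h2 : Real.log p ≤ M + 1 := by linarith [h1.2]
      have h3 : (1 : ℝ) / p ≤ Real.exp 1 / X := by
        rw [div_le_div_iff₀ hp0 hX0, one_mul]
        have h4 : (X : ℝ) ≤ Real.exp (1 + Real.log p) := by
          rw [← Real.log_le_iff_le_exp hX0]
          linarith [h1.1]
        rwa [Real.exp_add, Real.exp_log hp0] at h4
      have h5 : 0 ≤ Real.log p := Real.log_natCast_nonneg p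
      have h6 : Real.exp 3 = Real.exp 2 * Real.exp 1 := by
        rw [← Real.exp_add]; norm_num
      have h7 : Y ^ (34 : ℝ) = Y ^ (33 : ℝ) * (Y ^ (1 / 2 : ℝ) * Y ^ (1 / 2 : ℝ)) := by
        rw [← Real.rpow_add hY0, ← Real.rpow_add hY0]; norm_num
      calc 2 * Real.log p * (Real.exp 2 * (Real.sqrt k / M) * (1 / p)) ≤
          2 * (M + 1) * (Real.exp 2 * (2 * (Y ^ (33 : ℝ) * Y ^ (1 / 2 : ℝ))) *
            (Real.exp 1 / X)) := by gcongr
        _ = (Y ^ (33 : ℝ) * Y ^ (1 / 2 : ℝ)) * (4 * Real.exp 3 * (M + 1)) / X := by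
            rw [h6]; ring
        _ ≤ (Y ^ (33 : ℝ) * Y ^ (1 / 2 : ℝ)) * Y ^ (1 / 2 : ℝ) / X := by
            gcongr
            refine le_trans ?_ hlogY
            gcongr
        _ = _ := by rw [h7]; ring
  · refine hu3.trans ?_
    have h1 : c / 124 / κ = c / (124 * κ) := by rw [div_div]
    rw [h1]
    calc 2 * (C * Real.exp (-(c * M / Real.log D)) + (D : ℝ) ^ 2 * (C * (k / M / Real.sqrt k) *
          Real.exp (2 * M - Δ ^ 2 * k / (32 * M ^ 2)))) ≤ 2 * (ε + ε) := by gcongr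
      _ = 4 * C * Real.exp (-(c / (124 * κ))) := by rw [hε]; ring



end Pool.Agent.GA
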